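import Pool.Agent.Q296.Disp.Stm

set_option autoImplicit false

namespace Pool.Agent.Q296.Disp

open Finset

variable {n : ℕ}

lemma r_zero (a : Equiv.Perm (Fin n)) (y : ℕ) : r a 0 y = 0 := by
  unfold r
  simp

lemma Le.refl' (i j : ℕ) (a : Equiv.Perm (Fin n)) : Le i j a a := fun _ _ _ _ => le_rfl

/-- the last block -/
lemma good_top : Good n n n (fun _ => 1) := by
  refine ⟨fun _ => 1, fun F a => F a, fun _ => one_pos, ?_, fun _ => rfl, fun F hF => hF,
    fun F G _ _ a => le_rfl, fun H F _ => rfl⟩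
  intro r _ _ _
  simp only [one_pow, mul_one, one_mul]
  linarith

/-- symmetry -/
lemma Good.symm (hSW : S_SW) {i j : ℕ} {W : Equiv.Perm (Fin n) → ℝ} (h : Good n i j W) :
    Good n j i (fun a => W a.symm) := by
  obtain ⟨d, E, hd, hK, h1, hM, hA, hS⟩ := h
  have hLe : ∀ {x y : ℕ} {a b : Equiv.Perm (Fin n)}, Le x y a b → Le y x a.symm b.symm := by
    intro x y a b h u hu v hv
    rw [hSW.1, hSW.1]
    exact h v hv u hu
  have hMo : ∀ {x y : ℕ} {F : Equiv.Perm (Fin n) → ℝ}, Mo x y F → Mo y x (fun a => F a.symm) :=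
    fun hF a b hab => hF _ _ (hLe hab)
  refine ⟨d, fun F a => E (fun b => F b.symm) a.symm, hd, ?_, fun a => h1 _, fun F hF => hMo
    (hM _ (hMo hF)), fun F G hF hG a => hA _ _ (hMo hF) (hMo hG) _, ?_⟩
  · intro r h1 h2 h3
    have := hK r h2 h1 (by omega)
    linarith
  · intro H F hH
    have h5 := hS (fun a => H a.symm) (fun a => F a.symm) (fun a b hab hba => hH _ _ (hLe hab)
      (hLe hba))
    have h6 : ∀ X : Equiv.Perm (Fin n) → ℝ, ∑ a : Equiv.Perm (Fin n), X a.symm = ∑ a, X a := fun X =>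
      Equiv.sum_comp (Equiv.inv (Equiv.Perm (Fin n))) X
    rw [← h6 (fun a => H a * (d (r a j i) * E (fun b => F b.symm) a.symm)),
      ← h6 (fun a => H a * (W a.symm * F a))]
    simp only [Equiv.symm_symm]
    rw [← h5]
    apply Finset.sum_congr rfl
    intro a _
    rw [hSW.1]

lemma mv_le (hSW : S_SW) {i : ℕ} {a : Equiv.Perm (Fin n)} {J s : Fin n} (h : J ≤ a s) :
    Le i J (mv a J s) a ∧ Le i J a (mv a J s) :=
  ⟨fun x _ y hy => (hSW.2.1 n a J s h x y hy).le, fun x _ y hy => (hSW.2.1 n a J s h x y hy).ge⟩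

lemma wsum_eq (hSW : S_SW) (i : ℕ) (_hi : i ≤ n) (J : Fin n) (d : ℕ → ℝ)
    (Φ : Equiv.Perm (Fin n) → ℝ) (a : Equiv.Perm (Fin n)) :
    ∑ s ∈ opt a J, d (r (mv a J s) i (J + 1)) * Φ (mv a J s) =
      d (r a i J + 1) * ∑ s ∈ (opt a J).filter (fun s : Fin n => (s : ℕ) < i), Φ (mv a J s) +
      d (r a i J) * ∑ s ∈ (opt a J).filter (fun s : Fin n => ¬ (s : ℕ) < i), Φ (mv a J s) := by
  rw [← Finset.sum_filter_add_sum_filter_not (opt a J) (fun s : Fin n => (s : ℕ) < i),
    Finset.mul_sum, Finset.mul_sum]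
  congr 1
  · apply Finset.sum_congr rfl
    intro s hs
    rw [Finset.mem_filter, opt, Finset.mem_filter] at hs
    rw [hSW.2.2.1 n a J s hs.1.2, if_pos hs.2]
  · apply Finset.sum_congr rfl
    intro s hs
    rw [Finset.mem_filter, opt, Finset.mem_filter] at hs
    rw [hSW.2.2.1 n a J s hs.1.2, if_neg hs.2, add_zero]

lemma Z_eq (hSW : S_SW) (i : ℕ) (hi : i ≤ n) (J : Fin n) (d : ℕ → ℝ)
    (a : Equiv.Perm (Fin n)) :
    ∑ s ∈ opt a J, d (r (mv a J s) i (J + 1)) =
      ((i - r a i J : ℕ) : ℝ) * d (r a i J + 1) + ((n + r a i J - i - J : ℕ) : ℝ) * d (r a i J) := by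
  have h := wsum_eq hSW i hi J d (fun _ => 1) a
  simp only [mul_one, Finset.sum_const, nsmul_eq_mul] at h
  rw [h]
  have h1 := hSW.2.2.2.2.1 n a J i hi
  have h2 := hSW.2.2.2.1 n a J
  have h3 := Finset.card_filter_add_card_filter_not (s := opt a J) (fun s : Fin n => (s : ℕ) < i)
  have h4 := J.2
  have e1 : ((opt a J).filter (fun s : Fin n => (s : ℕ) < i)).card = i - r a i J := by omega
  have e2 : ((opt a J).filter (fun s : Fin n => ¬ (s : ℕ) < i)).card = n + r a i J - i - J := by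
    omega
  rw [e1, e2]
  ring

lemma Z_pos (hSW : S_SW) (i : ℕ) (_hi : i ≤ n) (J : Fin n) (d : ℕ → ℝ) (hd : ∀ k, 0 < d k)
    (a : Equiv.Perm (Fin n)) : 0 < ∑ s ∈ opt a J, d (r (mv a J s) i (J + 1)) := by
  apply Finset.sum_pos (fun s _ => hd _)
  rw [← Finset.card_pos, hSW.2.2.2.1 n a J]
  have := J.2
  omega

/-- the column step -/
lemma good_col (hSW : S_SW) (hINV : S_INV) (hTH : S_TH) (hNUM : S_NUM) (hKK : S_K) (hCH : S_CH)
    {i : ℕ} (hi : i ≤ n) (J : Fin n) {x : ℝ} (hx : 1 ≤ x) {W : Equiv.Perm (Fin n) → ℝ}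
    (h : Good n i (J + 1) W) : Good n i J (fun a => x ^ (r a i J) * W a) := by
  obtain ⟨d, E, hd, hK, h1, hM, hA, hS⟩ := h
  obtain ⟨hd', hK'⟩ := hKK n i J x d hi J.2 hx hd hK
  have hZ := Z_pos hSW i hi J d hd
  refine ⟨nxt n i J x d, nxtE i J d E, hd', hK', ?_, ?_, ?_, ?_⟩
  · intro a
    unfold nxtE
    simp only [h1, mul_one]
    exact div_self (hZ a).ne'
  · -- monotone
    intro F hF a b hab
    obtain ⟨θ, hθ1, hθ2, hθ3⟩ := hTH n i J (E F) hi (hM F hF)
    have hra := hSW.2.2.2.2.2.2 n a i J hi J.2.le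
    have hrb := hSW.2.2.2.2.2.2 n b i J hi J.2.le
    have hr : r a i J ≤ r b i J := hab i le_rfl J le_rfl
    have hrw : ∀ c, nxtE i J d E F c = (d (r c i J + 1) * ∑ k ∈ range (i - r c i J), θ c k +
        d (r c i J) * (((n + r c i J - i - J : ℕ) : ℝ) * θ c (i - r c i J))) /
        (((i - r c i J : ℕ) : ℝ) * d (r c i J + 1) +
          ((n + r c i J - i - J : ℕ) : ℝ) * d (r c i J)) := by
      intro c
      unfold nxtE
      rw [wsum_eq hSW i hi J d, Z_eq hSW i hi J d, hθ1, hθ2]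
    rw [hrw a, hrw b]
    exact hNUM n i J (r a i J) (r b i J) d (θ a) (θ b) hi J.2 hd hK hr hrb.1 hrb.2.1 hra.2.2
      (fun k k' h1 h2 h3 => hθ3 a b hab k k' h1 h2 h3)
      (fun k k' h1 h2 h3 => hθ3 b b (Le.refl' _ _ _) k k' h1 h2 h3)
  · -- association
    intro F G hF hG a
    unfold nxtE
    rw [div_mul_div_comm, div_le_div_iff₀ (mul_pos (hZ a) (hZ a)) (hZ a)]
    have hcomp : ∀ s ∈ opt a J, ∀ t ∈ opt a J, (t : ℕ) ≤ s →
        Le i (J + 1) (mv a J s) (mv a J t) := by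
      intro s hs t ht hst u hu v hv
      rw [opt, Finset.mem_filter] at hs ht
      rcases Nat.lt_or_ge v (J + 1) with h | h
      · rw [hSW.2.1 n a J s hs.2 u v (by omega), hSW.2.1 n a J t ht.2 u v (by omega)]
      · have : v = J + 1 := le_antisymm hv h
        rw [this, hSW.2.2.1 n a J s hs.2, hSW.2.2.1 n a J t ht.2]
        split_ifs <;> omega
    have hch := hCH (Fin n) (opt a J) (fun s => d (r (mv a J s) i (J + 1)))
      (fun s => E F (mv a J s)) (fun s => E G (mv a J s)) (fun s _ => (hd _).le) (by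
        intro s hs t ht
        rcases le_total (t : ℕ) s with h | h
        · exact Or.inl ⟨hM F hF _ _ (hcomp s hs t ht h), hM G hG _ _ (hcomp s hs t ht h)⟩
        · exact Or.inr ⟨hM F hF _ _ (hcomp t ht s hs h), hM G hG _ _ (hcomp t ht s hs h)⟩)
    have h2 : ∑ s ∈ opt a J, d (r (mv a J s) i (J + 1)) * (E F (mv a J s) * E G (mv a J s)) ≤
        ∑ s ∈ opt a J, d (r (mv a J s) i (J + 1)) * E (fun b => F b * G b) (mv a J s) :=
      Finset.sum_le_sum fun s _ => mul_le_mul_of_nonneg_left (hA F G hF hG _) (hd _).le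
    have h3 := mul_le_mul_of_nonneg_left h2 (hZ a).le
    have h4 := mul_le_mul_of_nonneg_right (hch.trans h3) (hZ a).le
    nlinarith [h4]
  · -- sums
    intro H F hH
    have hnj : (0 : ℝ) < (n : ℝ) - (J : ℕ) := by
      have := J.2
      have h5 : ((J : ℕ) : ℝ) < n := by exact_mod_cast this
      linarith
    have e1 : ∀ a, H a * (nxt n i J x d (r a i J) * nxtE i J d E F a) =
        (∑ s ∈ opt a J, (H (mv a J s) * x ^ (r (mv a J s) i J)) *
          (d (r (mv a J s) i (J + 1)) * E F (mv a J s))) / ((n : ℝ) - (J : ℕ)) := by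
      intro a
      have e2 : ∑ s ∈ opt a J, (H (mv a J s) * x ^ (r (mv a J s) i J)) *
          (d (r (mv a J s) i (J + 1)) * E F (mv a J s)) = (H a * x ^ (r a i J)) *
            ∑ s ∈ opt a J, d (r (mv a J s) i (J + 1)) * E F (mv a J s) := by
        rw [Finset.mul_sum]
        apply Finset.sum_congr rfl
        intro s hs
        rw [opt, Finset.mem_filter] at hs
        have h6 := mv_le (i := i) hSW hs.2
        rw [hH _ _ h6.1 h6.2, hSW.2.1 n a J s hs.2 i J le_rfl]
      rw [e2]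
      unfold nxt nxtE
      rw [← Z_eq hSW i hi J d a]
      have := (hZ a).ne'
      field_simp
    simp only [e1]
    rw [← Finset.sum_div, hINV n J (fun b => (H b * x ^ (r b i J)) *
      (d (r b i (J + 1)) * E F b)), mul_div_assoc, mul_comm, div_mul_cancel₀ _ hnj.ne',
      hS (fun b => H b * x ^ (r b i J)) F]
    · apply Finset.sum_congr rfl
      intro a _
      ring
    · intro a b hab hba
      have h7 : Le i J a b := fun u hu v hv => hab u hu v (by omega)
      have h8 : Le i J b a := fun u hu v hv => hba u hu v (by omega)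
      rw [hH a b h7 h8, le_antisymm (h7 i le_rfl J le_rfl) (h8 i le_rfl J le_rfl)]

/-- the row step -/
lemma good_row (hSW : S_SW) (hINV : S_INV) (hTH : S_TH) (hNUM : S_NUM) (hKK : S_K) (hCH : S_CH)
    {j : ℕ} (hj : j ≤ n) (I : Fin n) {x : ℝ} (hx : 1 ≤ x) {W : Equiv.Perm (Fin n) → ℝ}
    (h : Good n (I + 1) j W) : Good n I j (fun a => x ^ (r a I j) * W a) := by
  have h1 := (good_col hSW hINV hTH hNUM hKK hCH hj I hx (h.symm hSW)).symm hSW
  simp only [Equiv.symm_symm] at h1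
  have h2 : (fun a : Equiv.Perm (Fin n) => x ^ (r a.symm j I) * W a) =
      fun a => x ^ (r a I j) * W a := by
    funext a
    rw [hSW.1]
  rw [h2] at h1
  exact h1

/-- the diagonal weights -/
lemma good_diag (hSW : S_SW) (hINV : S_INV) (hTH : S_TH) (hNUM : S_NUM) (hKK : S_K) (hCH : S_CH)
    (x : ℕ → ℝ) (hx : ∀ c, 1 ≤ x c) : ∀ m c : ℕ, c + m = n →
      Good n c c (fun a => ∏ k ∈ Finset.Ico c n, x k ^ (r a k k)) := by
  intro m
  induction m with
  | zero =>
    intro c hc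
    obtain rfl : c = n := by omega
    simpa using good_top (n := c)
  | succ m ih =>
    intro c hc
    have h1 := ih (c + 1) (by omega)
    have hcn : c < n := by omega
    have h2 := good_row hSW hINV hTH hNUM hKK hCH (j := c + 1) (by omega) ⟨c, hcn⟩
      (x := 1) le_rfl h1
    have h3 := good_col hSW hINV hTH hNUM hKK hCH (i := c) hcn.le ⟨c, hcn⟩
      (x := x c) (hx c) h2
    simp only [one_pow, one_mul] at h3
    have h4 : (fun a : Equiv.Perm (Fin n) => ∏ k ∈ Finset.Ico c n, x k ^ (r a k k)) =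
        fun a => x c ^ (r a c c) * ∏ k ∈ Finset.Ico (c + 1) n, x k ^ (r a k k) := by
      funext a
      exact Finset.prod_eq_prod_Ico_succ_bot hcn _
    rw [h4]
    exact h3

/-- positive association from the statement at the block `(0, 0)` -/
lemma pa_of_good {W : Equiv.Perm (Fin n) → ℝ} (h : Good n 0 0 W)
    {F G : Equiv.Perm (Fin n) → ℝ} (hF : Mo n n F) (hG : Mo n n G) :
    (∑ a, W a * F a) * (∑ a, W a * G a) ≤ (∑ a, W a) * ∑ a, W a * (F a * G a) := by
  obtain ⟨d, E, hd, -, h1, hM, hA, hS⟩ := h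
  have h0 : ∀ a b : Equiv.Perm (Fin n), Le 0 0 a b := by
    intro a b x hx y hy
    obtain rfl : x = 0 := by omega
    rw [r_zero, r_zero]
  have hconst : ∀ {F : Equiv.Perm (Fin n) → ℝ}, Mo n n F → ∀ a, E F a = E F 1 := fun hF a =>
    le_antisymm (hM _ hF _ _ (h0 _ _)) (hM _ hF _ _ (h0 _ _))
  have hsum : ∀ F : Equiv.Perm (Fin n) → ℝ, ∑ a, W a * F a = d 0 * ∑ a, E F a := by
    intro F
    have := hS (fun _ => 1) F (fun _ _ _ _ => rfl)
    simp only [one_mul, r_zero] at this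
    rw [← this, Finset.mul_sum]
  have e1 : ∑ a, W a = d 0 * ∑ _a : Equiv.Perm (Fin n), (1 : ℝ) := by
    have := hsum (fun _ => 1)
    simp only [mul_one, h1] at this
    exact this
  set N : ℝ := ∑ _a : Equiv.Perm (Fin n), (1 : ℝ) with hN
  have hN0 : 0 < N := by
    rw [hN]
    exact Finset.sum_pos (fun _ _ => one_pos) ⟨1, Finset.mem_univ _⟩
  have e2 : ∀ {F : Equiv.Perm (Fin n) → ℝ}, Mo n n F → ∑ a, W a * F a = d 0 * (N * E F 1) := by
    intro F hF
    rw [hsum, hN, Finset.sum_mul]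
    congr 1
    exact Finset.sum_congr rfl fun a _ => by rw [hconst hF a, one_mul]
  have e3 : d 0 * (N * (E F 1 * E G 1)) ≤ ∑ a, W a * (F a * G a) := by
    rw [hsum, hN, Finset.sum_mul]
    apply mul_le_mul_of_nonneg_left _ (hd 0).le
    apply Finset.sum_le_sum
    intro a _
    rw [one_mul, ← hconst hF a, ← hconst hG a]
    exact hA F G hF hG a
  rw [e1, e2 hF, e2 hG]
  have h4 := mul_le_mul_of_nonneg_left e3 (mul_pos (hd 0) hN0).le
  calc _ = d 0 * N * (d 0 * (N * (E F 1 * E G 1))) := by ring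
    _ ≤ _ := h4

end Pool.Agent.Q296.Disp
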