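import Pool.Agent.Q296.Disp.Stm

set_option autoImplicit false

namespace Pool.Agent.Q296.Disp

open Finset

theorem ch : S_CH := by
  intro ι S w X Y hw hXY
  have h : 0 ≤ ∑ s ∈ S, ∑ t ∈ S, w s * w t * ((X s - X t) * (Y s - Y t)) := by
    apply Finset.sum_nonneg
    intro s hs
    apply Finset.sum_nonneg
    intro t ht
    apply mul_nonneg (mul_nonneg (hw s hs) (hw t ht))
    rcases hXY s hs t ht with ⟨h1, h2⟩ | ⟨h1, h2⟩
    · nlinarith
    · nlinarith
  have e : ∑ s ∈ S, ∑ t ∈ S, w s * w t * ((X s - X t) * (Y s - Y t)) =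
      2 * ((∑ s ∈ S, w s) * ∑ s ∈ S, w s * (X s * Y s)) -
        2 * ((∑ s ∈ S, w s * X s) * (∑ s ∈ S, w s * Y s)) := by
    have e1 : ∀ s ∈ S, ∑ t ∈ S, w s * w t * ((X s - X t) * (Y s - Y t)) =
        (w s * (X s * Y s)) * (∑ t ∈ S, w t) + w s * (∑ t ∈ S, w t * (X t * Y t)) -
          (w s * X s) * (∑ t ∈ S, w t * Y t) - (w s * Y s) * (∑ t ∈ S, w t * X t) := by
      intro s _
      rw [Finset.mul_sum, Finset.mul_sum, Finset.mul_sum, Finset.mul_sum,
        ← Finset.sum_add_distrib, ← Finset.sum_sub_distrib, ← Finset.sum_sub_distrib]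
      exact Finset.sum_congr rfl fun t _ => by ring
    rw [Finset.sum_congr rfl e1, Finset.sum_sub_distrib, Finset.sum_sub_distrib,
      Finset.sum_add_distrib, ← Finset.sum_mul, ← Finset.sum_mul, ← Finset.sum_mul,
      ← Finset.sum_mul]
    ring
  rw [e] at h
  linarith

end Pool.Agent.Q296.Disp
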