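import Pool.Agent.Q296.Disp.Sw

set_option autoImplicit false

namespace Pool.Agent.Q296.Disp

open Finset

lemma abs_sum {n x y : ℕ} (hx : x < n) (hy : y < n) : |(x : ℤ) - (y : ℤ)| =
    ∑ c ∈ range n, ((if y < c ∧ c ≤ x then (1 : ℤ) else 0) +
      (if x < c ∧ c ≤ y then (1 : ℤ) else 0)) := by
  have h : ∀ u v : ℕ, u < n → ∑ c ∈ range n, (if v < c ∧ c ≤ u then (1 : ℤ) else 0) =
      ((u - v : ℕ) : ℤ) := by
    intro u v hu
    rw [Finset.sum_boole]
    have : (range n).filter (fun c => v < c ∧ c ≤ u) = Finset.Ioc v u := by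
      ext c
      simp only [Finset.mem_filter, Finset.mem_range, Finset.mem_Ioc]
      constructor
      · exact fun h => h.2
      · exact fun h => ⟨by omega, h⟩
    rw [this, Nat.card_Ioc]
  rw [Finset.sum_add_distrib, h x y hx, h y x hy]
  rcases le_total x y with h1 | h1
  · have h2 : x - y = 0 := by omega
    rw [h2, Nat.cast_sub h1, abs_of_nonpos (by
      have : (x : ℤ) ≤ y := by exact_mod_cast h1
      linarith)]
    push_cast
    ring
  · have h2 : y - x = 0 := by omega
    rw [h2, Nat.cast_sub h1, abs_of_nonneg (by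
      have : (y : ℤ) ≤ x := by exact_mod_cast h1
      linarith)]
    push_cast
    ring

lemma cnt {n c : ℕ} (hc : c ≤ n) (b : Equiv.Perm (Fin n)) :
    (univ.filter fun v : Fin n => (b v : ℕ) < c).card = c := by
  have h : (univ.filter fun v : Fin n => (b v : ℕ) < c).card =
      (univ.filter fun k : Fin n => (k : ℕ) < c).card := by
    refine Finset.card_bij (fun k _ => b k) ?_ ?_ ?_
    · intro k hk
      rw [Finset.mem_filter] at hk ⊢
      exact ⟨Finset.mem_univ _, hk.2⟩
    · intro k _ l _ h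
      exact b.injective h
    · intro k hk
      rw [Finset.mem_filter] at hk
      refine ⟨b.symm k, ?_, by simp⟩
      rw [Finset.mem_filter]
      refine ⟨Finset.mem_univ _, ?_⟩
      rw [Equiv.apply_symm_apply]
      exact hk.2
  rw [h, card_lt n c hc]

lemma cnt1 {n c : ℕ} (hc : c ≤ n) (b : Equiv.Perm (Fin n)) :
    (univ.filter fun v : Fin n => (b v : ℕ) < c ∧ c ≤ (v : ℕ)).card + r b c c = c := by
  have h := Finset.card_filter_add_card_filter_not
    (s := univ.filter fun v : Fin n => (b v : ℕ) < c) (fun v : Fin n => c ≤ (v : ℕ))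
  rw [Finset.filter_filter, Finset.filter_filter, cnt hc] at h
  have e : (univ.filter fun v : Fin n => (b v : ℕ) < c ∧ ¬ c ≤ (v : ℕ)) =
      univ.filter fun k : Fin n => (k : ℕ) < c ∧ (b k : ℕ) < c := by
    ext k
    simp only [Finset.mem_filter, Finset.mem_univ, true_and]
    constructor <;> rintro ⟨h1, h2⟩ <;> constructor <;> omega
  rw [e] at h
  exact h

lemma cnt2 {n c : ℕ} (hc : c ≤ n) (b : Equiv.Perm (Fin n)) :
    (univ.filter fun v : Fin n => (v : ℕ) < c ∧ c ≤ (b v : ℕ)).card + r b c c = c := by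
  have h := Finset.card_filter_add_card_filter_not
    (s := univ.filter fun v : Fin n => (v : ℕ) < c) (fun v : Fin n => c ≤ (b v : ℕ))
  rw [Finset.filter_filter, Finset.filter_filter, card_lt n c hc] at h
  have e : (univ.filter fun v : Fin n => (v : ℕ) < c ∧ ¬ c ≤ (b v : ℕ)) =
      univ.filter fun k : Fin n => (k : ℕ) < c ∧ (b k : ℕ) < c := by
    ext k
    simp only [Finset.mem_filter, Finset.mem_univ, true_and]
    constructor <;> rintro ⟨h1, h2⟩ <;> constructor <;> omega
  rw [e] at h
  exact h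

theorem dis : S_DIS := by
  intro n a
  have h1 : ∑ v : Fin n, |((v : ℕ) : ℤ) - ((a.symm v : Fin n) : ℕ)| =
      ∑ c ∈ range n, ((univ.filter fun v : Fin n => (a.symm v : ℕ) < c ∧ c ≤ (v : ℕ)).card +
        ((univ.filter fun v : Fin n => (v : ℕ) < c ∧ c ≤ (a.symm v : ℕ)).card : ℤ)) := by
    rw [Finset.sum_congr rfl fun (v : Fin n) _ => abs_sum v.2 (a.symm v).2, Finset.sum_comm]
    apply Finset.sum_congr rfl
    intro c _
    rw [Finset.sum_add_distrib, Finset.sum_boole, Finset.sum_boole]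
  rw [h1, Finset.mul_sum, Finset.mul_sum, ← Finset.sum_add_distrib]
  apply Finset.sum_congr rfl
  intro c hc
  have hc' := (Finset.mem_range.1 hc).le
  have h2 := cnt1 hc' a.symm
  have h3 := cnt2 hc' a.symm
  rw [sw1] at h2 h3
  have h4 : (((univ.filter fun v : Fin n => (a.symm v : ℕ) < c ∧ c ≤ (v : ℕ)).card + r a c c : ℕ)
      : ℤ) = c := by exact_mod_cast h2
  have h5 : (((univ.filter fun v : Fin n => (v : ℕ) < c ∧ c ≤ (a.symm v : ℕ)).card + r a c c : ℕ)
      : ℤ) = c := by exact_mod_cast h3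
  push_cast at h4 h5
  linarith

end Pool.Agent.Q296.Disp
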