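import Pool.Agent.Q296.Disp.Sw

set_option autoImplicit false

namespace Pool.Agent.Q296.Disp

open Finset

lemma mv_symm_J {n : ℕ} (a : Equiv.Perm (Fin n)) (J s : Fin n) : (mv a J s).symm J = s := by
  rw [Equiv.symm_apply_eq, mv_self]

lemma mv_mv {n : ℕ} (a : Equiv.Perm (Fin n)) (J s : Fin n) :
    mv (mv a J s) J (a.symm J) = a := by
  unfold mv
  have h : (a * Equiv.swap s (a.symm J)).symm J = s := mv_symm_J a J s
  rw [h, mul_assoc, Equiv.swap_comm (a.symm J) s, Equiv.swap_mul_self, mul_one]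

theorem inv : S_INV := by
  intro n J Ψ
  have h1 : ∑ a : Equiv.Perm (Fin n), ∑ s ∈ opt a J, Ψ (mv a J s) =
      ∑ p ∈ (univ : Finset (Equiv.Perm (Fin n))).sigma (fun a => opt a J), Ψ (mv p.1 J p.2) := by
    rw [Finset.sum_sigma]
  have h2 : ∑ b : Equiv.Perm (Fin n), ∑ _p ∈ opt b J, Ψ b =
      ∑ p ∈ (univ : Finset (Equiv.Perm (Fin n))).sigma (fun a => opt a J), Ψ p.1 := by
    rw [Finset.sum_sigma]
  have h3 : ∑ p ∈ (univ : Finset (Equiv.Perm (Fin n))).sigma (fun a => opt a J),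
      Ψ (mv p.1 J p.2) =
      ∑ p ∈ (univ : Finset (Equiv.Perm (Fin n))).sigma (fun a => opt a J), Ψ p.1 := by
    refine Finset.sum_nbij' (fun p => ⟨mv p.1 J p.2, p.1.symm J⟩)
      (fun p => ⟨mv p.1 J p.2, p.1.symm J⟩) ?_ ?_ ?_ ?_ ?_
    · rintro ⟨a, s⟩ h
      rw [Finset.mem_sigma, opt, Finset.mem_filter] at h ⊢
      refine ⟨Finset.mem_univ _, Finset.mem_univ _, ?_⟩
      rw [mv_old]
      exact h.2.2
    · rintro ⟨a, s⟩ h
      rw [Finset.mem_sigma, opt, Finset.mem_filter] at h ⊢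
      refine ⟨Finset.mem_univ _, Finset.mem_univ _, ?_⟩
      rw [mv_old]
      exact h.2.2
    · rintro ⟨a, s⟩ _
      simp only [mv_mv, mv_symm_J]
    · rintro ⟨a, s⟩ _
      simp only [mv_mv, mv_symm_J]
    · rintro ⟨a, s⟩ _
      rfl
  rw [h1, h3, ← h2, Finset.mul_sum]
  apply Finset.sum_congr rfl
  intro b _
  rw [Finset.sum_const, sw4, nsmul_eq_mul, Nat.cast_sub J.2.le]

end Pool.Agent.Q296.Disp
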