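import Pool.Agent.Q296.Disp.Stm

set_option autoImplicit false

namespace Pool.Agent.Q296.Disp

open Finset

theorem kk : S_K := by
  intro n i j x d hi hj hx hd hK
  have hnj : (0 : ℝ) < (n : ℝ) - j := by
    have : (j : ℝ) < n := by exact_mod_cast hj
    linarith
  have hx0 : 0 < x := by linarith
  refine ⟨?_, ?_⟩
  · intro k
    unfold nxt
    apply mul_pos (pow_pos hx0 _)
    apply div_pos _ hnj
    rcases Nat.eq_zero_or_pos (i - k) with h | h
    · have h2 : 0 < n + k - i - j := by omega
      have h3 : (0 : ℝ) < ((n + k - i - j : ℕ) : ℝ) := by exact_mod_cast h2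
      rw [h]
      have := mul_pos h3 (hd k)
      simpa using this
    · have h3 : (0 : ℝ) < ((i - k : ℕ) : ℝ) := by exact_mod_cast h
      have := mul_pos h3 (hd (k + 1))
      have h4 : 0 ≤ ((n + k - i - j : ℕ) : ℝ) * d k := mul_nonneg (Nat.cast_nonneg _) (hd k).le
      linarith
  · intro r h1 h2 h3
    -- the numbers
    obtain ⟨H, hH⟩ : ∃ H : ℝ, H = (n : ℝ) + r + 1 - i - j := ⟨_, rfl⟩
    obtain ⟨f, hf⟩ : ∃ f : ℝ, f = (i : ℝ) - r := ⟨_, rfl⟩
    have hH0 : 0 ≤ H := by
      rw [hH]
      have : ((i + j : ℕ) : ℝ) ≤ ((n + r + 1 : ℕ) : ℝ) := by exact_mod_cast h3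
      push_cast at this
      linarith
    have hf2 : 2 ≤ f := by
      rw [hf]
      have : ((r + 2 : ℕ) : ℝ) ≤ (i : ℝ) := by exact_mod_cast h1
      push_cast at this
      linarith
    obtain ⟨A0, hA0⟩ : ∃ A0 : ℝ, A0 = ((i - r : ℕ) : ℝ) * d (r + 1) +
      ((n + r - i - j : ℕ) : ℝ) * d r := ⟨_, rfl⟩
    obtain ⟨A1, hA1⟩ : ∃ A1 : ℝ, A1 = (f - 1) * d (r + 2) + H * d (r + 1) := ⟨_, rfl⟩
    obtain ⟨A2, hA2⟩ : ∃ A2 : ℝ, A2 = (f - 2) * d (r + 3) + (H + 1) * d (r + 2) := ⟨_, rfl⟩
    have d0 := hd r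
    have d1 := hd (r + 1)
    have d2 := hd (r + 2)
    have d3 := hd (r + 3)
    have hA1p : 0 < A1 := by
      rw [hA1]
      have := mul_pos (show (0 : ℝ) < f - 1 by linarith) d2
      have := mul_nonneg hH0 d1.le
      linarith
    have hA2p : 0 < A2 := by
      rw [hA2]
      have := mul_nonneg (show (0 : ℝ) ≤ f - 2 by linarith) d3.le
      have := mul_pos (show (0 : ℝ) < H + 1 by linarith) d2
      linarith
    have hA0e : H * A0 = H * (f * d (r + 1) + (H - 1) * d r) := by
      rw [hA0]
      rcases Nat.eq_or_lt_of_le h3 with h4 | h4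
      · have : H = 0 := by
          rw [hH]
          have h5 : ((i + j : ℕ) : ℝ) = ((n + r + 1 : ℕ) : ℝ) := by exact_mod_cast h4
          push_cast at h5
          linarith
        rw [this]
        ring
      · have e1 : ((i - r : ℕ) : ℝ) = f := by
          rw [hf, Nat.cast_sub (by omega)]
        have e2 : ((n + r - i - j : ℕ) : ℝ) = H - 1 := by
          rw [hH, Nat.cast_sub (by omega), Nat.cast_sub (by omega)]
          push_cast
          ring
        rw [e1, e2]
    have s1 : H * d (r + 1) * A1 ≤ H * A0 * d (r + 2) := by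
      rw [hA0e]
      rcases Nat.eq_or_lt_of_le h3 with h4 | h4
      · have : H = 0 := by
          rw [hH]
          have h5 : ((i + j : ℕ) : ℝ) = ((n + r + 1 : ℕ) : ℝ) := by exact_mod_cast h4
          push_cast at h5
          linarith
        rw [this]
        simp
      · have hk := hK r h1 (by omega) (by omega)
        push_cast at hk
        have hk' : H * d (r + 1) ^ 2 ≤ d (r + 2) * ((H - 1) * d r + d (r + 1)) := by
          rw [hH]
          have e1 : (n : ℝ) + r + 1 - i - j = (n : ℝ) + r + 2 - i - (j + 1) := by ring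
          have e2 : (n : ℝ) + r + 1 - i - j - 1 = (n : ℝ) + r + 1 - i - (j + 1) := by ring
          rw [e2]
          nth_rewrite 1 [e1]
          exact hk
        rw [hA1]
        have := mul_le_mul_of_nonneg_left hk' hH0
        nlinarith [this]
    have s2 : (H + 1) * d (r + 2) * A1 ≤ A2 * (H * d (r + 1) + d (r + 2)) := by
      rw [hA1, hA2]
      rcases Nat.eq_or_lt_of_le h1 with h4 | h4
      · have : f = 2 := by
          rw [hf]
          have h5 : ((r + 2 : ℕ) : ℝ) = (i : ℝ) := by exact_mod_cast h4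
          push_cast at h5
          linarith
        rw [this]
        nlinarith
      · have hk := hK (r + 1) (by omega) (by omega) (by omega)
        push_cast at hk
        have hk' : (H + 1) * d (r + 2) ^ 2 ≤ d (r + 3) * (H * d (r + 1) + d (r + 2)) := by
          rw [hH]
          have e1 : (n : ℝ) + r + 1 - i - j + 1 = (n : ℝ) + (r + 1) + 2 - i - (j + 1) := by ring
          have e2 : (n : ℝ) + r + 1 - i - j = (n : ℝ) + (r + 1) + 1 - i - (j + 1) := by ring
          rw [e1, e2]
          exact hk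
        have := mul_le_mul_of_nonneg_left hk' (show (0 : ℝ) ≤ f - 2 by linarith)
        nlinarith [this]
    -- the main inequality
    have key : (H + 1) * A1 ^ 2 ≤ A2 * (H * A0 + A1) := by
      have t1 : A2 * (H * d (r + 1) + d (r + 2)) * A1 ≤ A2 * (H * A0 + A1) * d (r + 2) := by
        have := mul_le_mul_of_nonneg_left s1 hA2p.le
        nlinarith [this]
      have t2 := mul_le_mul_of_nonneg_right s2 hA1p.le
      have t3 : ((H + 1) * A1 ^ 2) * d (r + 2) ≤ (A2 * (H * A0 + A1)) * d (r + 2) := by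
        calc ((H + 1) * A1 ^ 2) * d (r + 2) = (H + 1) * d (r + 2) * A1 * A1 := by ring
          _ ≤ A2 * (H * d (r + 1) + d (r + 2)) * A1 := t2
          _ ≤ _ := t1
      exact le_of_mul_le_mul_right t3 d2
    have n0 : nxt n i j x d r = x ^ r * (A0 / ((n : ℝ) - j)) := by
      unfold nxt
      rw [hA0]
    have n1 : nxt n i j x d (r + 1) = x ^ (r + 1) * (A1 / ((n : ℝ) - j)) := by
      unfold nxt
      have e1 : ((i - (r + 1) : ℕ) : ℝ) = f - 1 := by
        rw [hf, Nat.cast_sub (by omega)]
        push_cast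
        ring
      have e2 : ((n + (r + 1) - i - j : ℕ) : ℝ) = H := by
        rw [hH, Nat.cast_sub (by omega), Nat.cast_sub (by omega)]
        push_cast
        ring
      rw [e1, e2, hA1]
    have n2 : nxt n i j x d (r + 2) = x ^ (r + 2) * (A2 / ((n : ℝ) - j)) := by
      unfold nxt
      have e1 : ((i - (r + 2) : ℕ) : ℝ) = f - 2 := by
        rw [hf, Nat.cast_sub (by omega)]
        push_cast
        ring
      have e2 : ((n + (r + 2) - i - j : ℕ) : ℝ) = H + 1 := by
        rw [hH, Nat.cast_sub (by omega), Nat.cast_sub (by omega)]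
        push_cast
        ring
      rw [e1, e2, hA2]
    have g1 : (n : ℝ) + r + 2 - i - j = H + 1 := by rw [hH]; ring
    rw [n0, n1, n2, g1, ← hH]
    have hxr : 0 < x ^ (2 * r + 2) := pow_pos hx0 _
    have q1 : (H + 1) * (x ^ (r + 1) * (A1 / ((n : ℝ) - j))) ^ 2 =
        x ^ (2 * r + 2) * ((H + 1) * A1 ^ 2) / ((n : ℝ) - j) ^ 2 := by
      rw [mul_pow, div_pow, ← pow_mul]
      ring_nf
    have q2 : x ^ (r + 2) * (A2 / ((n : ℝ) - j)) * (H * (x ^ r * (A0 / ((n : ℝ) - j))) +
        x ^ (r + 1) * (A1 / ((n : ℝ) - j))) =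
        x ^ (2 * r + 2) * (A2 * (H * A0 + x * A1)) / ((n : ℝ) - j) ^ 2 := by
      field_simp
      ring
    rw [q1, q2]
    apply div_le_div_of_nonneg_right _ (pow_pos hnj 2).le
    apply mul_le_mul_of_nonneg_left _ hxr.le
    apply key.trans
    apply mul_le_mul_of_nonneg_left _ hA2p.le
    nlinarith [hA1p]

end Pool.Agent.Q296.Disp
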