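import Pool.Agent.Q296.Disp.Stm

set_option autoImplicit false

namespace Pool.Agent.Q296.Disp

open Finset

lemma c_anti {n i j : ℕ} {d : ℕ → ℝ} (hd : ∀ k, 0 < d k) (hK : K n i (j + 1) d) {r : ℕ}
    (hij : i + j ≤ n + r) : ∀ m : ℕ, r + m + 1 ≤ i → r + m ≤ j →
      ((i : ℝ) - (r + m : ℕ)) + ((n : ℝ) + (r + m : ℕ) - i - j) * d (r + m) / d (r + m + 1) ≤
        ((i : ℝ) - r) + ((n : ℝ) + r - i - j) * d r / d (r + 1) := by
  intro m
  induction m with
  | zero => intro _ _; simp
  | succ m ih =>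
    intro h1 h2
    refine le_trans ?_ (ih (by omega) (by omega))
    have hk := hK (r + m) (by omega) (by omega) (by omega)
    push_cast at hk ⊢
    have d1 := hd (r + m + 1)
    have d2 := hd (r + m + 2)
    have e : r + (m + 1) = r + m + 1 := by ring
    rw [e]
    have e2 : ((n : ℝ) + (r + (m + 1)) - i - j) * d (r + m + 1) / d (r + m + 2) ≤
        ((n : ℝ) + (r + m) - i - j) * d (r + m) / d (r + m + 1) + 1 := by
      rw [div_add_one d1.ne', div_le_div_iff₀ d2 d1]
      nlinarith [hk]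
    linarith

theorem num : S_NUM := by
  intro n i j r r' d θ ψ hi hj hd hK hrr hr'i hr'j hij h1 h2
  rcases Nat.eq_or_lt_of_le hrr with rfl | hlt
  · -- equal ranks
    have hden : (0 : ℝ) ≤ ((i - r : ℕ) : ℝ) * d (r + 1) + ((n + r - i - j : ℕ) : ℝ) * d r :=
      add_nonneg (mul_nonneg (Nat.cast_nonneg _) (hd _).le)
        (mul_nonneg (Nat.cast_nonneg _) (hd _).le)
    apply div_le_div_of_nonneg_right _ hden
    apply add_le_add
    · apply mul_le_mul_of_nonneg_left _ (hd _).le
      apply Finset.sum_le_sum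
      intro k hk
      exact h1 k k le_rfl (Or.inl (Finset.mem_range.1 hk)) (Or.inl (Finset.mem_range.1 hk))
    · apply mul_le_mul_of_nonneg_left _ (hd _).le
      rcases Nat.eq_zero_or_pos (n + r - i - j) with h0 | h0
      · rw [h0]
        simp
      · apply mul_le_mul_of_nonneg_left _ (Nat.cast_nonneg _)
        exact h1 _ _ le_rfl (Or.inr ⟨rfl, by omega⟩) (Or.inr ⟨rfl, by omega⟩)
  · -- `r < r'`
    obtain ⟨f, hf⟩ : ∃ f, f = i - r := ⟨_, rfl⟩
    obtain ⟨f', hf'⟩ : ∃ f', f' = i - r' := ⟨_, rfl⟩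
    obtain ⟨h, hh⟩ : ∃ h, h = n + r - i - j := ⟨_, rfl⟩
    obtain ⟨h', hh'⟩ : ∃ h', h' = n + r' - i - j := ⟨_, rfl⟩
    rw [← hf, ← hf', ← hh, ← hh']
    rw [← hf, ← hf'] at h1
    rw [← hf'] at h2
    have hff : f' < f := by omega
    have hh'0 : 0 < h' := by omega
    have hadm : i + j < n + r' := by omega
    have hP := hd (r + 1)
    have hQ := hd r
    have hP' := hd (r' + 1)
    have hQ' := hd r'
    obtain ⟨S, hS⟩ : ∃ S, S = ∑ k ∈ range f', ψ k := ⟨_, rfl⟩
    rw [← hS]
    have hS1 : (f' : ℝ) * ψ f' ≤ S := by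
      rw [hS]
      calc (f' : ℝ) * ψ f' = ∑ _k ∈ range f', ψ f' := by
            rw [Finset.sum_const, Finset.card_range, nsmul_eq_mul]
        _ ≤ _ := Finset.sum_le_sum fun k hk => h2 f' k (Finset.mem_range.1 hk).le
            (Or.inr ⟨rfl, hadm⟩) (Or.inl (Finset.mem_range.1 hk))
    have hθ1 : ∑ k ∈ range f, θ k ≤ S + ((f : ℝ) - f') * ψ f' := by
      rw [Finset.range_eq_Ico, ← Finset.sum_Ico_consecutive θ (Nat.zero_le f') hff.le,
        ← Finset.range_eq_Ico]
      apply add_le_add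
      · rw [hS]
        apply Finset.sum_le_sum
        intro k hk
        have := Finset.mem_range.1 hk
        exact h1 k k le_rfl (Or.inl (by omega)) (Or.inl this)
      · calc ∑ k ∈ Ico f' f, θ k ≤ ∑ _k ∈ Ico f' f, ψ f' := by
              apply Finset.sum_le_sum
              intro k hk
              rw [Finset.mem_Ico] at hk
              exact h1 k f' hk.1 (Or.inl hk.2) (Or.inr ⟨rfl, hadm⟩)
          _ = ((f : ℝ) - f') * ψ f' := by
              rw [Finset.sum_const, Nat.card_Ico, nsmul_eq_mul, Nat.cast_sub hff.le]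
    have hθ2 : (h : ℝ) * θ f ≤ (h : ℝ) * ψ f' := by
      rcases Nat.eq_zero_or_pos h with h0 | h0
      · rw [h0]
        simp
      · apply mul_le_mul_of_nonneg_left _ (Nat.cast_nonneg _)
        exact h1 f f' hff.le (Or.inr ⟨rfl, by omega⟩) (Or.inr ⟨rfl, hadm⟩)
    have hden : 0 < (f : ℝ) * d (r + 1) + (h : ℝ) * d r := by
      have h3 : (0 : ℝ) < f := by
        have : 0 < f := by omega
        exact_mod_cast this
      have := mul_pos h3 hP
      have := mul_nonneg (Nat.cast_nonneg (α := ℝ) h) hQ.le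
      linarith
    have hden' : 0 < (f' : ℝ) * d (r' + 1) + (h' : ℝ) * d r' := by
      have h3 : (0 : ℝ) < h' := by exact_mod_cast hh'0
      have := mul_pos h3 hQ'
      have := mul_nonneg (Nat.cast_nonneg (α := ℝ) f') hP'.le
      linarith
    have hne := hden.ne'
    have hne' := hden'.ne'
    -- the two sides
    have step1 : (d (r + 1) * ∑ k ∈ range f, θ k + d r * ((h : ℝ) * θ f)) /
        ((f : ℝ) * d (r + 1) + (h : ℝ) * d r) ≤
        ψ f' + d (r + 1) * (S - f' * ψ f') / ((f : ℝ) * d (r + 1) + (h : ℝ) * d r) := by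
      rw [← sub_nonneg]
      have : ψ f' + d (r + 1) * (S - f' * ψ f') / ((f : ℝ) * d (r + 1) + (h : ℝ) * d r) -
          (d (r + 1) * ∑ k ∈ range f, θ k + d r * ((h : ℝ) * θ f)) /
            ((f : ℝ) * d (r + 1) + (h : ℝ) * d r) =
          (d (r + 1) * (S + ((f : ℝ) - f') * ψ f' - ∑ k ∈ range f, θ k) +
            d r * ((h : ℝ) * ψ f' - (h : ℝ) * θ f)) /
            ((f : ℝ) * d (r + 1) + (h : ℝ) * d r) := by
        have hg : ∀ a b c Z : ℝ, Z ≠ 0 → (a * Z + b - c) / Z = a + b / Z - c / Z := by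
          intro a b c Z hZ
          field_simp
        rw [← hg _ _ _ _ hne]
        congr 1
        ring
      rw [this]
      apply div_nonneg _ hden.le
      apply add_nonneg
      · exact mul_nonneg hP.le (by linarith)
      · exact mul_nonneg hQ.le (by linarith)
    have step2 : (d (r' + 1) * S + d r' * ((h' : ℝ) * ψ f')) /
        ((f' : ℝ) * d (r' + 1) + (h' : ℝ) * d r') =
        ψ f' + d (r' + 1) * (S - f' * ψ f') / ((f' : ℝ) * d (r' + 1) + (h' : ℝ) * d r') := by
      have hg : ∀ a b Z : ℝ, Z ≠ 0 → (a * Z + b) / Z = a + b / Z := by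
        intro a b Z hZ
        field_simp
      rw [← hg _ _ _ hne']
      congr 1
      ring
    rw [step2]
    refine step1.trans ?_
    apply add_le_add le_rfl
    rcases Nat.eq_zero_or_pos f' with h0 | h0
    · have : S - (f' : ℝ) * ψ f' = 0 := by
        rw [hS, h0]
        simp
      rw [this]
      simp
    · obtain ⟨m, hm⟩ := Nat.exists_eq_add_of_le hrr
      have hc := c_anti hd hK hij m (by omega) (by omega)
      rw [← hm] at hc
      have hT : 0 ≤ S - (f' : ℝ) * ψ f' := by linarith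
      rw [div_le_div_iff₀ hden hden']
      have e1 : ((f : ℕ) : ℝ) = (i : ℝ) - r := by
        rw [hf, Nat.cast_sub (by omega)]
      have e2 : ((f' : ℕ) : ℝ) = (i : ℝ) - r' := by
        rw [hf', Nat.cast_sub (by omega)]
      have e3 : ((h : ℕ) : ℝ) = (n : ℝ) + r - i - j := by
        rw [hh, Nat.cast_sub (by omega), Nat.cast_sub (by omega)]
        push_cast
        ring
      have e4 : ((h' : ℕ) : ℝ) = (n : ℝ) + r' - i - j := by
        rw [hh', Nat.cast_sub (by omega), Nat.cast_sub (by omega)]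
        push_cast
        ring
      rw [← e1, ← e2, ← e3, ← e4] at hc
      have key : d (r + 1) * ((f' : ℝ) * d (r' + 1) + (h' : ℝ) * d r') ≤
          d (r' + 1) * ((f : ℝ) * d (r + 1) + (h : ℝ) * d r) := by
        have h5 := mul_le_mul_of_nonneg_left hc (mul_pos hP hP').le
        have h6 : d (r + 1) * d (r' + 1) * ((f' : ℝ) + (h' : ℝ) * d r' / d (r' + 1)) =
            d (r + 1) * ((f' : ℝ) * d (r' + 1) + (h' : ℝ) * d r') := by
          field_simp
        have h7 : d (r + 1) * d (r' + 1) * ((f : ℝ) + (h : ℝ) * d r / d (r + 1)) =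
            d (r' + 1) * ((f : ℝ) * d (r + 1) + (h : ℝ) * d r) := by
          field_simp
        rw [h6, h7] at h5
        exact h5
      have := mul_le_mul_of_nonneg_left key hT
      nlinarith [this]

end Pool.Agent.Q296.Disp
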