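import Mathlib

/-!
# Positive association of the displacement measure on permutations (MP_7e7ec7_co)

Project DM of helper296.  Definitions and the statements `S_...` of the lemma jobs, with complete
proofs in the docstrings.  The assembly is in `Asm.lean`.

A permutation `a : Equiv.Perm (Fin n)` has the entry `a k` at the position `k`; positions and
entries are numbered from `0`.  `r a x y` is the number of positions `k < x` with entry `< y`.
-/

set_option autoImplicit false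

namespace Pool.Agent.Q296.Disp

open Finset

/-- the rank function: the number of positions `k < x` with entry `< y` -/
def r {n : ℕ} (a : Equiv.Perm (Fin n)) (x y : ℕ) : ℕ :=
  (univ.filter fun k : Fin n => (k : ℕ) < x ∧ (a k : ℕ) < y).card

/-- the order at the block `(i, j)` -/
def Le {n : ℕ} (i j : ℕ) (a b : Equiv.Perm (Fin n)) : Prop :=
  ∀ x ≤ i, ∀ y ≤ j, r a x y ≤ r b x y

/-- monotone functions for the block `(i, j)` -/
def Mo {n : ℕ} (i j : ℕ) (F : Equiv.Perm (Fin n) → ℝ) : Prop := ∀ a b, Le i j a b → F a ≤ F b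

/-- move the entry `J` to the position `s` (the entry of `s` goes to the old position of `J`) -/
def mv {n : ℕ} (a : Equiv.Perm (Fin n)) (J s : Fin n) : Equiv.Perm (Fin n) :=
  a * Equiv.swap s (a.symm J)

/-- the positions which can receive the entry `J`: those with an entry `≥ J` -/
def opt {n : ℕ} (a : Equiv.Perm (Fin n)) (J : Fin n) : Finset (Fin n) :=
  univ.filter fun s : Fin n => J ≤ a s

/-- the numerical condition at the block `(i, j)` -/
def K (n i j : ℕ) (d : ℕ → ℝ) : Prop :=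
  ∀ r : ℕ, r + 2 ≤ i → r + 2 ≤ j → i + j ≤ n + r + 1 →
    ((n : ℝ) + r + 2 - i - j) * d (r + 1) ^ 2 ≤
      d (r + 2) * (((n : ℝ) + r + 1 - i - j) * d r + d (r + 1))

/-- the inductive statement at the block `(i, j)` for the weight `W` -/
def Good (n i j : ℕ) (W : Equiv.Perm (Fin n) → ℝ) : Prop :=
  ∃ (d : ℕ → ℝ) (E : (Equiv.Perm (Fin n) → ℝ) → Equiv.Perm (Fin n) → ℝ),
    (∀ k, 0 < d k) ∧ K n i j d ∧ (∀ a, E (fun _ => 1) a = 1) ∧
    (∀ F : Equiv.Perm (Fin n) → ℝ, Mo n n F → Mo i j (E F)) ∧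
    (∀ F G : Equiv.Perm (Fin n) → ℝ, Mo n n F → Mo n n G → ∀ a,
      E F a * E G a ≤ E (fun b => F b * G b) a) ∧
    (∀ H F : Equiv.Perm (Fin n) → ℝ, (∀ a b, Le i j a b → Le i j b a → H a = H b) →
      ∑ a, H a * (d (r a i j) * E F a) = ∑ a, H a * (W a * F a))

/-- the numbers `d` of the block `(i, j)` from those of the block `(i, j + 1)` -/
noncomputable def nxt (n i j : ℕ) (x : ℝ) (d : ℕ → ℝ) (r : ℕ) : ℝ :=
  x ^ r * ((((i - r : ℕ) : ℝ) * d (r + 1) + ((n + r - i - j : ℕ) : ℝ) * d r) / ((n : ℝ) - j))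

/-- the operator of the block `(i, j)`, `j = J`, from that of the block `(i, j + 1)` -/
noncomputable def nxtE {n : ℕ} (i : ℕ) (J : Fin n) (d : ℕ → ℝ)
    (E : (Equiv.Perm (Fin n) → ℝ) → Equiv.Perm (Fin n) → ℝ) (F : Equiv.Perm (Fin n) → ℝ)
    (a : Equiv.Perm (Fin n)) : ℝ :=
  (∑ s ∈ opt a J, d (r (mv a J s) i (J + 1)) * E F (mv a J s)) /
    ∑ s ∈ opt a J, d (r (mv a J s) i (J + 1))

/-! ### The jobs -/

/-- JOB DM-TAB (tableau criterion).  `A` is closed under the exchange of the entries `u < v` of an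
inversion.  Then `A` is an up-set for the order of all rank functions.

Proof: induction on `∑ x < n + 1, ∑ y < n + 1, (r b x y - r a x y)` (or on the number of
inversions of `a`).  Let `a ≠ b`, and let `p` be the first position with `a p ≠ b p`.  The
inequality for `x = p + 1`, `y = b p + 1` gives `b p < a p` (if `a p < b p`, then
`r a (p+1) (a p + 1) = r b (p+1) (a p + 1) + 1`, since `a` and `b` agree before `p`).  The entry
`b p` occurs in `a` at a position `> p`, so there is a least position `q > p` with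
`b p ≤ a q < a p`.  Let `a' = swap (a q) (a p) * a` (exchange the entries at `p` and `q`; `a q < a
p` and `p < q`: an inversion; `a' ∈ A`).  One has `r a' x y = r a x y + 1` if `p < x ≤ q` and
`a q < y ≤ a p`, and `r a' x y = r a x y` otherwise.  Claim: `r a' ≤ r b`.  For `p < x ≤ q`,
`a q < y ≤ a p`: the positions `k` with `p < k < x`, `a k < y` have `a k < b p` by the choice of
`q`, so `r a x y = r a x (b p) + #{k < p : b p ≤ a k < y}` and
`r b x y ≥ r b x (b p) + #{k < p : b p ≤ b k < y} + 1` (the position `p`, since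
`b p ≤ a q < y`); `a`, `b` agree before `p`. -/
def S_TAB : Prop := ∀ (n : ℕ) (A : Finset (Equiv.Perm (Fin n))),
  (∀ a ∈ A, ∀ u v : Fin n, u < v → a.symm v < a.symm u → Equiv.swap u v * a ∈ A) →
    ∀ a b : Equiv.Perm (Fin n), a ∈ A → (∀ x y : ℕ, r a x y ≤ r b x y) → b ∈ A

/-- JOB DM-DIS.  `∑ |i - pos(a, i)|` in terms of the diagonal ranks: for `a` both sides count the
pairs `(k, c)`, `c < n`, with `k < c ≤ a k` or `a k < c ≤ k`: for fixed `c` there are
`c - r a c c` positions `k < c` with entry `≥ c` and as many positions `≥ c` with entry `< c`. -/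
def S_DIS : Prop := ∀ (n : ℕ) (a : Equiv.Perm (Fin n)),
  (∑ v : Fin n, |((v : ℕ) : ℤ) - ((a.symm v : Fin n) : ℕ)|) +
    2 * ∑ c ∈ range n, (r a c c : ℤ) = 2 * ∑ c ∈ range n, (c : ℤ)

/-- JOB DM-SW (simple facts).
(1) symmetry: `k ↦ a k` is a bijection between the positions and entries counted.
(2), (3) `mv a J s` has the entry `J` at the position `s`, the entry `a s` at the position
`a.symm J`, and agrees with `a` elsewhere; `a s ≥ J`.
(4) the `n - J` positions of the entries `≥ J`.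
(5) the positions `< i`: those with entry `< J` and those with entry `≥ J`.
(6) monotone in `x`, increases by at most one in each step.
(7) the position `s` of the entry `J` counts for `r (mv a J s) x (J + 1)` if `s < x`. -/
def S_SW : Prop :=
  (∀ (n : ℕ) (a : Equiv.Perm (Fin n)) (x y : ℕ), r a.symm x y = r a y x) ∧
  (∀ (n : ℕ) (a : Equiv.Perm (Fin n)) (J s : Fin n), J ≤ a s → ∀ x y : ℕ, y ≤ J →
    r (mv a J s) x y = r a x y) ∧
  (∀ (n : ℕ) (a : Equiv.Perm (Fin n)) (J s : Fin n), J ≤ a s → ∀ x : ℕ,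
    r (mv a J s) x (J + 1) = r a x J + if (s : ℕ) < x then 1 else 0) ∧
  (∀ (n : ℕ) (a : Equiv.Perm (Fin n)) (J : Fin n), (opt a J).card = n - J) ∧
  (∀ (n : ℕ) (a : Equiv.Perm (Fin n)) (J : Fin n) (i : ℕ), i ≤ n →
    ((opt a J).filter fun s : Fin n => (s : ℕ) < i).card + r a i J = i) ∧
  (∀ (n : ℕ) (a : Equiv.Perm (Fin n)) (x x' y : ℕ), x ≤ x' →
    r a x y ≤ r a x' y ∧ r a x' y ≤ r a x y + (x' - x)) ∧
  (∀ (n : ℕ) (a : Equiv.Perm (Fin n)) (i j : ℕ), i ≤ n → j ≤ n →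
    r a i j ≤ i ∧ r a i j ≤ j ∧ i + j ≤ n + r a i j)

/-- JOB DM-INV (invariance of sums).  The map `(a, s) ↦ (mv a J s, a.symm J)` is an involution of
the set of pairs `(a, s)` with `J ≤ a s`: for `b = mv a J s` and `p = a.symm J` one has
`b.symm J = s`, `b p = a s`, `mv b J p = a`.  So
`∑ a, ∑ s ∈ opt a J, Ψ (mv a J s) = ∑ b, ∑ p ∈ opt b J, Ψ b = (n - J) ∑ b, Ψ b`. -/
def S_INV : Prop := ∀ (n : ℕ) (J : Fin n) (Ψ : Equiv.Perm (Fin n) → ℝ),
  ∑ a, ∑ s ∈ opt a J, Ψ (mv a J s) = ((n : ℝ) - J) * ∑ b, Ψ b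

/-- JOB DM-TH (enumeration of the options; `S_SW` may be used as a hypothesis).  For
`s ∈ opt a J` let `rk a s = m - r a m J` with `m = min s i`.  For `x ≤ i`:
`s < x ↔ rk a s + r a x J < x` (if `s < x` then `m = s`, and
`r a x J < r a s J + (x - s)` since the position `s` has an entry `≥ J`; if `x ≤ s` then
`x ≤ m` and `r a m J ≤ r a x J + (m - x)`).  `s ↦ rk a s` is a bijection of
`{s ∈ opt a J : s < i}` onto `range (i - r a i J)` (it is strictly increasing there, the set has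
`i - r a i J` elements, and the values are `< i - r a i J`), and `rk a s = i - r a i J` for
`s ≥ i`.  If `Le i J a b`, `s ∈ opt a J`, `s' ∈ opt b J` and `rk b s' ≤ rk a s` then
`Le i (J + 1) (mv a J s) (mv b J s')`: for `y ≤ J` this is (2) of `S_SW`; for `y = J + 1` one
compares `r a x J + [rk a s + r a x J < x]` and `r b x J + [rk b s' + r b x J < x]`: clear if
`r a x J < r b x J`, and also if they are equal.  So, for `Φ` monotone at the block
`(i, J + 1)`, `Φ (mv a J s)` depends on `a` and `rk a s` only: it is `θ a (rk a s)`, where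
`θ a k = Φ (mv a J s)` for any `s ∈ opt a J` with `rk a s = k` (and `θ a k = 0` if there is
none). -/
def S_TH : Prop := ∀ (n i : ℕ) (J : Fin n) (Φ : Equiv.Perm (Fin n) → ℝ), i ≤ n →
  Mo i (J + 1) Φ → ∃ θ : Equiv.Perm (Fin n) → ℕ → ℝ,
    (∀ a, ∑ s ∈ (opt a J).filter (fun s : Fin n => (s : ℕ) < i), Φ (mv a J s) =
      ∑ k ∈ range (i - r a i J), θ a k) ∧
    (∀ a, ∑ s ∈ (opt a J).filter (fun s : Fin n => ¬ (s : ℕ) < i), Φ (mv a J s) =
      ((n + r a i J - i - J : ℕ) : ℝ) * θ a (i - r a i J)) ∧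
    (∀ a b, Le i J a b → ∀ k k', k' ≤ k →
      (k < i - r a i J ∨ (k = i - r a i J ∧ i + J < n + r a i J)) →
      (k' < i - r b i J ∨ (k' = i - r b i J ∧ i + J < n + r b i J)) → θ a k ≤ θ b k')

/-- JOB DM-NUM (numerical comparison).  With `f = i - r`, `f' = i - r'`, `h = n + r - i - j`,
`h' = n + r' - i - j`, `c = f + h d(r) / d(r+1)`, `c' = f' + h' d(r') / d(r'+1)`.

If `r = r'` the inequality holds termwise (denominators equal).  Let `r < r'`, so `f' < f`,
`h < h'`, in particular `h' > 0` and `ψ f'` is admissible.  Let `S = ∑ k < f', ψ k`.  Then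
`θ k ≤ ψ k` for `k < f'` and `θ k ≤ ψ f'` for `f' ≤ k < f` and for `k = f` if `h > 0`; so the
left side is `≤ (d(r+1) S + (d(r+1) (f - f') + d(r) h) ψ f') / (d(r+1) f + d(r) h)
= ψ f' + (S - f' ψ f') / c`, and the right side is `ψ f' + (S - f' ψ f') / c'`, where
`S - f' ψ f' ≥ 0`, and it is `0` if `f' = 0`.  If `f' ≥ 1` then `c' ≤ c`: by `K n i (j + 1) d`
at `ρ` (`r ≤ ρ < r'`: `ρ + 2 ≤ i`, `ρ + 2 ≤ j + 1`, `i + (j + 1) ≤ n + ρ + 1`) the numbers
`c(ρ) = (i - ρ) + (n + ρ - i - j) d(ρ) / d(ρ + 1)` satisfy `c(ρ + 1) ≤ c(ρ)`. -/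
def S_NUM : Prop := ∀ (n i j r r' : ℕ) (d θ ψ : ℕ → ℝ), i ≤ n → j < n → (∀ k, 0 < d k) →
  K n i (j + 1) d → r ≤ r' → r' ≤ i → r' ≤ j → i + j ≤ n + r →
  (∀ k k', k' ≤ k → (k < i - r ∨ (k = i - r ∧ i + j < n + r)) →
    (k' < i - r' ∨ (k' = i - r' ∧ i + j < n + r')) → θ k ≤ ψ k') →
  (∀ k k', k' ≤ k → (k < i - r' ∨ (k = i - r' ∧ i + j < n + r')) →
    (k' < i - r' ∨ (k' = i - r' ∧ i + j < n + r')) → ψ k ≤ ψ k') →
  (d (r + 1) * ∑ k ∈ range (i - r), θ k +
      d r * (((n + r - i - j : ℕ) : ℝ) * θ (i - r))) /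
    (((i - r : ℕ) : ℝ) * d (r + 1) + ((n + r - i - j : ℕ) : ℝ) * d r) ≤
  (d (r' + 1) * ∑ k ∈ range (i - r'), ψ k +
      d r' * (((n + r' - i - j : ℕ) : ℝ) * ψ (i - r'))) /
    (((i - r' : ℕ) : ℝ) * d (r' + 1) + ((n + r' - i - j : ℕ) : ℝ) * d r')

/-- JOB DM-K (propagation of the condition `K`).  Positivity: `i - r` and `n + r - i - j` are not
both `0` (else `n ≤ j`).  For `K`, let `H = n + r + 1 - i - j ≥ 0`, `f = i - r ≥ 2`,
`D0, D1, D2, D3 = d r, ..., d (r + 3)`,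
`A0 = f D1 + (H - 1) D0` (only `H A0` is used; for `H = 0` the truncated subtraction does not
matter), `A1 = (f - 1) D2 + H D1`, `A2 = (f - 2) D3 + (H + 1) D2`.  It is to be shown (up to the
factor `x ^ (2 r + 2) / (n - j) ^ 2`, using `x ≥ 1` for the term `A2 A1`) that
`(H + 1) A1 ^ 2 ≤ A2 (H A0 + A1)`.
First `H A0 D2 ≥ H D1 A1`: clear for `H = 0`; for `H ≥ 1` the condition `K` at `r` is
`H D1 ^ 2 ≤ D2 ((H - 1) D0 + D1)`.  Secondly `A2 (H D1 + D2) ≥ (H + 1) D2 A1`: equality if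
`f = 2`; for `f ≥ 3` the condition `K` at `r + 1` is `(H + 1) D2 ^ 2 ≤ D3 (H D1 + D2)`.  Hence
`A2 (H A0 + A1) D2 ≥ A2 (H D1 + D2) A1 ≥ (H + 1) D2 A1 ^ 2`. -/
def S_K : Prop := ∀ (n i j : ℕ) (x : ℝ) (d : ℕ → ℝ), i ≤ n → j < n → 1 ≤ x → (∀ k, 0 < d k) →
  K n i (j + 1) d → (∀ k, 0 < nxt n i j x d k) ∧ K n i j (nxt n i j x d)

/-- JOB DM-CH (weighted Chebyshev inequality on a chain).
`∑ w ∑ w X Y - ∑ w X ∑ w Y = 1/2 ∑ w_s w_t (X_s - X_t) (Y_s - Y_t)`. -/
def S_CH : Prop := ∀ (ι : Type) (S : Finset ι) (w X Y : ι → ℝ), (∀ s ∈ S, 0 ≤ w s) →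
  (∀ s ∈ S, ∀ t ∈ S, (X s ≤ X t ∧ Y s ≤ Y t) ∨ (X t ≤ X s ∧ Y t ≤ Y s)) →
  (∑ s ∈ S, w s * X s) * (∑ s ∈ S, w s * Y s) ≤
    (∑ s ∈ S, w s) * ∑ s ∈ S, w s * (X s * Y s)

end Pool.Agent.Q296.Disp
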