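import Pool.Agent.Q296.Disp.Stm

set_option autoImplicit false

namespace Pool.Agent.Q296.Disp

open Finset

lemma sw1 (n : ℕ) (a : Equiv.Perm (Fin n)) (x y : ℕ) : r a.symm x y = r a y x := by
  unfold r
  refine Finset.card_bij (fun k _ => a.symm k) ?_ ?_ ?_
  · intro k hk
    rw [Finset.mem_filter] at hk ⊢
    refine ⟨Finset.mem_univ _, hk.2.2, ?_⟩
    rw [Equiv.apply_symm_apply]
    exact hk.2.1
  · intro k _ l _ h
    exact a.symm.injective h
  · intro k hk
    rw [Finset.mem_filter] at hk
    refine ⟨a k, ?_, by simp⟩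
    rw [Finset.mem_filter]
    refine ⟨Finset.mem_univ _, hk.2.2, ?_⟩
    rw [Equiv.symm_apply_apply]
    exact hk.2.1

lemma mv_self {n : ℕ} (a : Equiv.Perm (Fin n)) (J s : Fin n) : mv a J s s = J := by
  simp [mv]

lemma mv_old {n : ℕ} (a : Equiv.Perm (Fin n)) (J s : Fin n) : mv a J s (a.symm J) = a s := by
  simp [mv]

lemma mv_other {n : ℕ} (a : Equiv.Perm (Fin n)) (J s k : Fin n) (h1 : k ≠ s)
    (h2 : k ≠ a.symm J) : mv a J s k = a k := by
  simp [mv, Equiv.swap_apply_of_ne_of_ne h1 h2]

lemma sw2 (n : ℕ) (a : Equiv.Perm (Fin n)) (J s : Fin n) (h : J ≤ a s) (x y : ℕ)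
    (hy : y ≤ J) : r (mv a J s) x y = r a x y := by
  unfold r
  congr 1
  apply Finset.filter_congr
  intro k _
  by_cases h1 : k = s
  · subst h1
    rw [mv_self]
    have : ((J : Fin n) : ℕ) ≤ (a k : ℕ) := h
    constructor <;> rintro ⟨h3, h4⟩ <;> omega
  · by_cases h2 : k = a.symm J
    · subst h2
      rw [mv_old, Equiv.apply_symm_apply]
      have : ((J : Fin n) : ℕ) ≤ (a s : ℕ) := h
      constructor <;> rintro ⟨h3, h4⟩ <;> omega
    · rw [mv_other a J s k h1 h2]

lemma sw3 (n : ℕ) (a : Equiv.Perm (Fin n)) (J s : Fin n) (h : J ≤ a s) (x : ℕ) :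
    r (mv a J s) x (J + 1) = r a x J + if (s : ℕ) < x then 1 else 0 := by
  rw [← sw2 n a J s h x J le_rfl]
  unfold r
  have h1 : (univ.filter fun k : Fin n => (k : ℕ) < x ∧ (mv a J s k : ℕ) < J + 1) =
      (univ.filter fun k : Fin n => (k : ℕ) < x ∧ (mv a J s k : ℕ) < J) ∪
      (univ.filter fun k : Fin n => (k : ℕ) < x ∧ k = s) := by
    ext k
    simp only [Finset.mem_union, Finset.mem_filter, Finset.mem_univ, true_and]
    have : (mv a J s k : ℕ) = J ↔ k = s := by
      rw [← Fin.ext_iff]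
      constructor
      · intro h2
        exact (mv a J s).injective (h2.trans (mv_self a J s).symm)
      · rintro rfl
        exact mv_self a J k
    constructor
    · rintro ⟨h2, h3⟩
      rcases Nat.lt_or_ge (mv a J s k : ℕ) J with h4 | h4
      · exact Or.inl ⟨h2, h4⟩
      · exact Or.inr ⟨h2, this.1 (by omega)⟩
    · rintro (⟨h2, h3⟩ | ⟨h2, h3⟩)
      · exact ⟨h2, by omega⟩
      · have := this.2 h3
        exact ⟨h2, by omega⟩
  rw [h1, Finset.card_union_of_disjoint]
  · congr 1
    split_ifs with h5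
    · rw [Finset.card_eq_one]
      refine ⟨s, ?_⟩
      ext k
      simp only [Finset.mem_filter, Finset.mem_univ, true_and, Finset.mem_singleton]
      constructor
      · exact fun h => h.2
      · rintro rfl
        exact ⟨h5, rfl⟩
    · rw [Finset.card_eq_zero]
      ext k
      simp only [Finset.mem_filter, Finset.mem_univ, true_and, Finset.notMem_empty, iff_false]
      rintro ⟨h6, rfl⟩
      exact h5 h6
  · rw [Finset.disjoint_left]
    intro k hk hk'
    rw [Finset.mem_filter] at hk hk'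
    obtain ⟨-, -, rfl⟩ := hk'
    rw [mv_self] at hk
    exact lt_irrefl _ hk.2.2

lemma card_lt (n i : ℕ) (hi : i ≤ n) :
    (univ.filter fun k : Fin n => (k : ℕ) < i).card = i := by
  have h2 : (univ.filter fun k : Fin n => (k : ℕ) < i) =
      (Finset.range i).attachFin (fun m hm => by
        rw [Finset.mem_range] at hm; omega) := by
    ext k
    simp
  rw [h2]
  simp

lemma sw4 (n : ℕ) (a : Equiv.Perm (Fin n)) (J : Fin n) : (opt a J).card = n - J := by
  have h1 : (opt a J).card = (univ.filter fun v : Fin n => J ≤ v).card := by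
    unfold opt
    refine Finset.card_bij (fun k _ => a k) ?_ ?_ ?_
    · intro k hk
      rw [Finset.mem_filter] at hk ⊢
      exact ⟨Finset.mem_univ _, hk.2⟩
    · intro k _ l _ h
      exact a.injective h
    · intro v hv
      rw [Finset.mem_filter] at hv
      refine ⟨a.symm v, ?_, by simp⟩
      rw [Finset.mem_filter]
      exact ⟨Finset.mem_univ _, by simpa using hv.2⟩
  have h2 := Finset.card_filter_add_card_filter_not (s := (univ : Finset (Fin n)))
    (fun v : Fin n => J ≤ v)
  have h3 : (univ.filter fun v : Fin n => ¬ J ≤ v) = univ.filter fun k : Fin n => (k : ℕ) < J := by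
    ext k
    simp only [Finset.mem_filter, Finset.mem_univ, true_and, not_le]
    exact Fin.lt_def
  rw [h3, card_lt n J J.2.le, Finset.card_univ, Fintype.card_fin] at h2
  rw [h1]
  omega

lemma sw5 (n : ℕ) (a : Equiv.Perm (Fin n)) (J : Fin n) (i : ℕ) (hi : i ≤ n) :
    ((opt a J).filter fun s : Fin n => (s : ℕ) < i).card + r a i J = i := by
  unfold r opt
  rw [Finset.filter_filter]
  have h2 := Finset.card_filter_add_card_filter_not
    (s := univ.filter fun k : Fin n => (k : ℕ) < i) (fun v : Fin n => J ≤ a v)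
  rw [card_lt n i hi, Finset.filter_filter, Finset.filter_filter] at h2
  have e1 : (univ.filter fun k : Fin n => J ≤ a k ∧ (k : ℕ) < i) =
      univ.filter fun k : Fin n => (k : ℕ) < i ∧ J ≤ a k := by
    ext k
    simp only [Finset.mem_filter, Finset.mem_univ, true_and]
    tauto
  have e2 : (univ.filter fun k : Fin n => (k : ℕ) < i ∧ (a k : ℕ) < J) =
      univ.filter fun k : Fin n => (k : ℕ) < i ∧ ¬ J ≤ a k := by
    ext k
    simp only [Finset.mem_filter, Finset.mem_univ, true_and, not_le, Fin.lt_def]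
  rw [e1, e2]
  exact h2

lemma sw6 (n : ℕ) (a : Equiv.Perm (Fin n)) (x x' y : ℕ) (h : x ≤ x') :
    r a x y ≤ r a x' y ∧ r a x' y ≤ r a x y + (x' - x) := by
  constructor
  · unfold r
    apply Finset.card_le_card
    intro k hk
    rw [Finset.mem_filter] at hk ⊢
    exact ⟨hk.1, by omega, hk.2.2⟩
  · unfold r
    have h1 : (univ.filter fun k : Fin n => (k : ℕ) < x' ∧ (a k : ℕ) < y) ⊆
        (univ.filter fun k : Fin n => (k : ℕ) < x ∧ (a k : ℕ) < y) ∪
        (univ.filter fun k : Fin n => x ≤ (k : ℕ) ∧ (k : ℕ) < x') := by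
      intro k hk
      rw [Finset.mem_filter] at hk
      rw [Finset.mem_union, Finset.mem_filter, Finset.mem_filter]
      rcases Nat.lt_or_ge (k : ℕ) x with h2 | h2
      · exact Or.inl ⟨hk.1, h2, hk.2.2⟩
      · exact Or.inr ⟨hk.1, h2, hk.2.1⟩
    have h2 : (univ.filter fun k : Fin n => x ≤ (k : ℕ) ∧ (k : ℕ) < x').card ≤ x' - x := by
      have h3 : ((univ.filter fun k : Fin n => x ≤ (k : ℕ) ∧ (k : ℕ) < x').map
          Fin.valEmbedding) ⊆ Finset.Ico x x' := by
        intro k hk
        rw [Finset.mem_map] at hk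
        obtain ⟨l, hl, rfl⟩ := hk
        rw [Finset.mem_filter] at hl
        exact Finset.mem_Ico.2 hl.2
      have h4 := Finset.card_le_card h3
      rw [Finset.card_map, Nat.card_Ico] at h4
      exact h4
    calc _ ≤ _ := Finset.card_le_card h1
      _ ≤ _ := Finset.card_union_le _ _
      _ ≤ _ := by omega

lemma sw7 (n : ℕ) (a : Equiv.Perm (Fin n)) (i j : ℕ) (hi : i ≤ n) (hj : j ≤ n) :
    r a i j ≤ i ∧ r a i j ≤ j ∧ i + j ≤ n + r a i j := by
  have h0 : ∀ (b : Equiv.Perm (Fin n)) (y : ℕ), r b 0 y = 0 := by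
    intro b y
    unfold r
    simp
  have h1 : r a i j ≤ i := by
    have := (sw6 n a 0 i j (Nat.zero_le _)).2
    rw [h0] at this
    omega
  have h2 : r a i j ≤ j := by
    rw [← sw1]
    have := (sw6 n a.symm 0 j i (Nat.zero_le _)).2
    rw [h0] at this
    omega
  have h3 : r a n j = j := by
    rw [← sw1]
    unfold r
    have : (univ.filter fun k : Fin n => (k : ℕ) < j ∧ (a.symm k : ℕ) < n) =
        univ.filter fun k : Fin n => (k : ℕ) < j := by
      ext k
      simp
    rw [this, card_lt n j hj]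
  have h4 := (sw6 n a i n j hi).2
  refine ⟨h1, h2, ?_⟩
  omega

theorem sw : S_SW := ⟨sw1, sw2, sw3, sw4, sw5, sw6, sw7⟩

end Pool.Agent.Q296.Disp
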