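import Pool.Agent.Q296.Disp.Sw

set_option autoImplicit false

namespace Pool.Agent.Q296.Disp

open Finset

/-- the positions strictly between `p` and `x` with an entry `< y` -/
def mid {n : ℕ} (p : Fin n) (a : Equiv.Perm (Fin n)) (x y : ℕ) : ℕ :=
  (univ.filter fun k : Fin n => p < k ∧ (k : ℕ) < x ∧ (a k : ℕ) < y).card

lemma r_split {n : ℕ} (p : Fin n) (a : Equiv.Perm (Fin n)) {x : ℕ} (y : ℕ) (hx : (p : ℕ) < x) :
    r a x y = r a p y + (if (a p : ℕ) < y then 1 else 0) + mid p a x y := by
  unfold r mid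
  have h1 : (univ.filter fun k : Fin n => (k : ℕ) < x ∧ (a k : ℕ) < y) =
      ((univ.filter fun k : Fin n => (k : ℕ) < p ∧ (a k : ℕ) < y) ∪
      (univ.filter fun k : Fin n => k = p ∧ (a p : ℕ) < y)) ∪
      (univ.filter fun k : Fin n => p < k ∧ (k : ℕ) < x ∧ (a k : ℕ) < y) := by
    ext k
    simp only [Finset.mem_union, Finset.mem_filter, Finset.mem_univ, true_and]
    constructor
    · rintro ⟨h1, h2⟩
      rcases lt_trichotomy k p with h | h | h
      · exact Or.inl (Or.inl ⟨h, h2⟩)
      · subst h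
        exact Or.inl (Or.inr ⟨rfl, h2⟩)
      · exact Or.inr ⟨h, h1, h2⟩
    · rintro ((⟨h1, h2⟩ | ⟨rfl, h2⟩) | ⟨h1, h2, h3⟩)
      · exact ⟨by omega, h2⟩
      · exact ⟨hx, h2⟩
      · exact ⟨h2, h3⟩
  rw [h1, Finset.card_union_of_disjoint, Finset.card_union_of_disjoint]
  · congr 2
    split_ifs with h
    · rw [Finset.card_eq_one]
      refine ⟨p, ?_⟩
      ext k
      simp [h]
    · rw [Finset.card_eq_zero]
      ext k
      simp [h]
  · rw [Finset.disjoint_left]
    intro k hk hk'
    rw [Finset.mem_filter] at hk hk'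
    obtain ⟨-, rfl, -⟩ := hk'
    exact lt_irrefl _ hk.2.1
  · rw [Finset.disjoint_left]
    intro k hk hk'
    rw [Finset.mem_union, Finset.mem_filter, Finset.mem_filter] at hk
    rw [Finset.mem_filter] at hk'
    have h2 : (p : ℕ) < k := hk'.2.1
    rcases hk with ⟨-, h3, -⟩ | ⟨-, rfl, -⟩
    · omega
    · exact lt_irrefl _ h2

lemma mid_mono {n : ℕ} (p : Fin n) (a : Equiv.Perm (Fin n)) (x : ℕ) {y y' : ℕ} (h : y ≤ y') :
    mid p a x y ≤ mid p a x y' := by
  unfold mid
  apply Finset.card_le_card
  intro k hk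
  rw [Finset.mem_filter] at hk ⊢
  exact ⟨hk.1, hk.2.1, hk.2.2.1, by omega⟩

lemma r_agree {n : ℕ} {p : Fin n} {a b : Equiv.Perm (Fin n)} (h : ∀ k < p, a k = b k) {x : ℕ}
    (hx : x ≤ p) (y : ℕ) : r a x y = r b x y := by
  unfold r
  congr 1
  apply Finset.filter_congr
  intro k _
  constructor
  · rintro ⟨h1, h2⟩
    have : k < p := Fin.lt_def.2 (by omega)
    exact ⟨h1, by rw [← h k this]; exact h2⟩
  · rintro ⟨h1, h2⟩
    have : k < p := Fin.lt_def.2 (by omega)
    exact ⟨h1, by rw [h k this]; exact h2⟩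

/-- one step of the tableau criterion -/
lemma step {n : ℕ} {a b : Equiv.Perm (Fin n)} (hne : a ≠ b) (hab : ∀ x y, r a x y ≤ r b x y) :
    ∃ u v : Fin n, u < v ∧ a.symm v < a.symm u ∧
      (∀ x y, r (Equiv.swap u v * a) x y ≤ r b x y) ∧
      (∀ x y, r a x y ≤ r (Equiv.swap u v * a) x y) ∧
      ∃ x < n + 1, ∃ y < n + 1, r a x y < r (Equiv.swap u v * a) x y := by
  classical
  -- the first difference
  have hex : (univ.filter fun k : Fin n => a k ≠ b k).Nonempty := by
    by_contra h
    rw [Finset.not_nonempty_iff_eq_empty] at h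
    apply hne
    ext k
    by_contra h2
    have : k ∈ (univ.filter fun k : Fin n => a k ≠ b k) := by
      rw [Finset.mem_filter]
      exact ⟨Finset.mem_univ _, fun h3 => h2 (by rw [h3])⟩
    rw [h] at this
    exact Finset.notMem_empty _ this
  obtain ⟨p, hp⟩ : ∃ p, p = (univ.filter fun k : Fin n => a k ≠ b k).min' hex := ⟨_, rfl⟩
  have hp1 : a p ≠ b p := by
    have := Finset.min'_mem _ hex
    rw [← hp, Finset.mem_filter] at this
    exact this.2
  have hp2 : ∀ k < p, a k = b k := by
    intro k hk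
    by_contra h
    have : p ≤ k := by
      rw [hp]
      exact Finset.min'_le (univ.filter fun k : Fin n => a k ≠ b k) k
        (Finset.mem_filter.2 ⟨Finset.mem_univ _, h⟩)
    exact absurd hk (not_lt.2 this)
  -- `b p < a p`
  have hlt : b p < a p := by
    rcases lt_or_gt_of_ne hp1 with h | h
    · exfalso
      have h1 := hab (p + 1) (a p + 1)
      rw [r_split p a _ (Nat.lt_succ_self _), r_split p b _ (Nat.lt_succ_self _),
        r_agree hp2 le_rfl] at h1
      have e1 : ∀ c : Equiv.Perm (Fin n), mid p c (p + 1) (a p + 1) = 0 := by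
        intro c
        unfold mid
        rw [Finset.card_eq_zero]
        ext k
        simp only [Finset.mem_filter, Finset.mem_univ, true_and, Finset.notMem_empty, iff_false]
        rintro ⟨h2, h3, -⟩
        have : (p : ℕ) < k := h2
        omega
      rw [e1, e1] at h1
      have h4 : (a p : ℕ) < b p := h
      rw [if_pos (by omega), if_neg (by omega)] at h1
      omega
    · exact h
  -- the partner
  have hex2 : (univ.filter fun k : Fin n => p < k ∧ b p ≤ a k ∧ a k < a p).Nonempty := by
    refine ⟨a.symm (b p), ?_⟩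
    rw [Finset.mem_filter, Equiv.apply_symm_apply]
    refine ⟨Finset.mem_univ _, ?_, le_rfl, hlt⟩
    rcases lt_trichotomy (a.symm (b p)) p with h | h | h
    · exfalso
      have h1 := hp2 _ h
      rw [Equiv.apply_symm_apply] at h1
      have h2 := b.injective h1
      rw [← h2] at h
      exact lt_irrefl _ h
    · exfalso
      rw [Equiv.symm_apply_eq] at h
      exact hp1 h.symm
    · exact h
  obtain ⟨q, hq⟩ : ∃ q, q = (univ.filter fun k : Fin n =>
    p < k ∧ b p ≤ a k ∧ a k < a p).min' hex2 := ⟨_, rfl⟩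
  have hq1 : p < q ∧ b p ≤ a q ∧ a q < a p := by
    have := Finset.min'_mem _ hex2
    rw [← hq, Finset.mem_filter] at this
    exact this.2
  have hq2 : ∀ k, p < k → k < q → a k < a p → a k < b p := by
    intro k h1 h2 h3
    by_contra h
    have : q ≤ k := by
      rw [hq]
      exact Finset.min'_le (univ.filter fun k : Fin n => p < k ∧ b p ≤ a k ∧ a k < a p) k
        (Finset.mem_filter.2 ⟨Finset.mem_univ _, h1, not_lt.1 h, h3⟩)
    exact absurd h2 (not_lt.2 this)
  obtain ⟨a', ha'⟩ : ∃ a', a' = Equiv.swap (a q) (a p) * a := ⟨_, rfl⟩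
  have hpq : p ≠ q := hq1.1.ne
  have e1 : a' p = a q := by
    rw [ha', Equiv.Perm.mul_apply, Equiv.swap_apply_right]
  have e2 : a' q = a p := by
    rw [ha', Equiv.Perm.mul_apply, Equiv.swap_apply_left]
  have e3 : ∀ k, k ≠ p → k ≠ q → a' k = a k := by
    intro k h1 h2
    rw [ha', Equiv.Perm.mul_apply, Equiv.swap_apply_of_ne_of_ne]
    · exact fun h => h2 (a.injective h)
    · exact fun h => h1 (a.injective h)
  have hqp : (a q : ℕ) < a p := hq1.2.2
  have hbq : (b p : ℕ) ≤ a q := hq1.2.1
  have hpq' : (p : ℕ) < q := hq1.1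
  -- the rank function of `a'`
  have hsame : ∀ x y : ℕ, ¬ ((p : ℕ) < x ∧ x ≤ q ∧ (a q : ℕ) < y ∧ y ≤ a p) →
      r a' x y = r a x y := by
    intro x y h
    by_cases h1 : (q : ℕ) < x
    · unfold r
      refine Finset.card_bij (fun k _ => Equiv.swap p q k) ?_ ?_ ?_
      · intro k hk
        rw [Finset.mem_filter] at hk ⊢
        refine ⟨Finset.mem_univ _, ?_⟩
        by_cases h2 : k = p
        · subst h2
          rw [Equiv.swap_apply_left]
          rw [e1] at hk
          exact ⟨h1, hk.2.2⟩
        · by_cases h3 : k = q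
          · subst h3
            rw [Equiv.swap_apply_right]
            rw [e2] at hk
            exact ⟨by omega, hk.2.2⟩
          · rw [Equiv.swap_apply_of_ne_of_ne h2 h3]
            rw [e3 k h2 h3] at hk
            exact hk.2
      · intro k _ l _ h
        exact (Equiv.swap p q).injective h
      · intro k hk
        rw [Finset.mem_filter] at hk
        refine ⟨Equiv.swap p q k, ?_, by simp⟩
        rw [Finset.mem_filter]
        refine ⟨Finset.mem_univ _, ?_⟩
        by_cases h2 : k = p
        · subst h2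
          rw [Equiv.swap_apply_left, e2]
          exact ⟨h1, hk.2.2⟩
        · by_cases h3 : k = q
          · subst h3
            rw [Equiv.swap_apply_right, e1]
            exact ⟨by omega, hk.2.2⟩
          · rw [Equiv.swap_apply_of_ne_of_ne h2 h3, e3 k h2 h3]
            exact hk.2
    · unfold r
      congr 1
      apply Finset.filter_congr
      intro k _
      by_cases h2 : k = p
      · subst h2
        rw [e1]
        constructor <;> rintro ⟨h3, h4⟩ <;> refine ⟨h3, ?_⟩ <;> omega
      · by_cases h3 : k = q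
        · subst h3
          constructor <;> rintro ⟨h3, h4⟩ <;> omega
        · rw [e3 k h2 h3]
  have hplus : ∀ x y : ℕ, (p : ℕ) < x → x ≤ q → (a q : ℕ) < y → y ≤ a p →
      r a' x y = r a x y + 1 := by
    intro x y h1 h2 h3 h4
    have hag : ∀ k < p, a' k = a k := fun k hk => e3 k hk.ne (by
      intro h
      rw [h] at hk
      exact absurd hk (not_lt.2 hq1.1.le))
    rw [r_split p a' y h1, r_split p a y h1, r_agree hag le_rfl, e1, if_pos h3, if_neg (by omega)]
    have : mid p a' x y = mid p a x y := by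
      unfold mid
      congr 1
      apply Finset.filter_congr
      intro k _
      by_cases h5 : p < k ∧ (k : ℕ) < x
      · rw [e3 k h5.1.ne' (by
          intro h
          rw [h] at h5
          have := h5.2
          omega)]
      · constructor <;> rintro ⟨h6, h7, h8⟩ <;> exact absurd ⟨h6, h7⟩ h5
    rw [this]
    ring
  have hle : ∀ x y : ℕ, (p : ℕ) < x → x ≤ q → (a q : ℕ) < y → y ≤ a p →
      r a x y + 1 ≤ r b x y := by
    intro x y h1 h2 h3 h4
    have h5 := hab x (b p)
    have hlt' : (b p : ℕ) < a p := hlt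
    rw [r_split p a _ h1, r_split p b _ h1, r_agree hp2 le_rfl, if_neg (by omega),
      if_neg (by omega)] at h5
    rw [r_split p a y h1, r_split p b y h1, r_agree hp2 le_rfl, if_neg (by omega),
      if_pos (by omega)]
    have h6 : mid p a x y ≤ mid p a x (b p) := by
      unfold mid
      apply Finset.card_le_card
      intro k hk
      rw [Finset.mem_filter] at hk ⊢
      refine ⟨hk.1, hk.2.1, hk.2.2.1, ?_⟩
      exact hq2 k hk.2.1 (Fin.lt_def.2 (by omega)) (Fin.lt_def.2 (by omega))
    have h7 := mid_mono p b x (show (b p : ℕ) ≤ y by omega)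
    omega
  refine ⟨a q, a p, hq1.2.2, ?_, ?_, ?_, ?_⟩
  · rw [Equiv.symm_apply_apply, Equiv.symm_apply_apply]
    exact hq1.1
  · intro x y
    rw [← ha']
    by_cases h : (p : ℕ) < x ∧ x ≤ q ∧ (a q : ℕ) < y ∧ y ≤ a p
    · rw [hplus x y h.1 h.2.1 h.2.2.1 h.2.2.2]
      exact hle x y h.1 h.2.1 h.2.2.1 h.2.2.2
    · rw [hsame x y h]
      exact hab x y
  · intro x y
    rw [← ha']
    by_cases h : (p : ℕ) < x ∧ x ≤ q ∧ (a q : ℕ) < y ∧ y ≤ a p
    · rw [hplus x y h.1 h.2.1 h.2.2.1 h.2.2.2]
      omega
    · rw [hsame x y h]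
  · rw [← ha']
    have hpn := p.2
    have hqn := (a q).2
    refine ⟨p + 1, by omega, a q + 1, by omega, ?_⟩
    rw [hplus (p + 1) (a q + 1) (by omega) (by omega) (by omega) (by omega)]
    omega

theorem tab : S_TAB := by
  intro n A hA
  obtain ⟨S, hS⟩ : ∃ S : Equiv.Perm (Fin n) → ℕ, S = fun a =>
    ∑ x ∈ range (n + 1), ∑ y ∈ range (n + 1), r a x y := ⟨_, rfl⟩
  have hSle : ∀ a b : Equiv.Perm (Fin n), (∀ x y, r a x y ≤ r b x y) → S a ≤ S b := by
    intro a b h
    rw [hS]
    exact Finset.sum_le_sum fun x _ => Finset.sum_le_sum fun y _ => h x y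
  have main : ∀ (m : ℕ) (a b : Equiv.Perm (Fin n)), a ∈ A → (∀ x y, r a x y ≤ r b x y) →
      S b ≤ S a + m → b ∈ A := by
    intro m
    induction m with
    | zero =>
      intro a b ha hab hm
      by_cases hne : a = b
      · rw [← hne]
        exact ha
      · exfalso
        obtain ⟨u, v, huv, hinv, h1, h2, x, hx, y, hy, hxy⟩ := step hne hab
        have h3 := hSle _ _ h1
        have h4 : S a < S (Equiv.swap u v * a) := by
          rw [hS]
          apply Finset.sum_lt_sum (fun x _ => Finset.sum_le_sum fun y _ => h2 x y)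
          exact ⟨x, Finset.mem_range.2 hx, Finset.sum_lt_sum (fun y _ => h2 x y)
            ⟨y, Finset.mem_range.2 hy, hxy⟩⟩
        omega
    | succ m ih =>
      intro a b ha hab hm
      by_cases hne : a = b
      · rw [← hne]
        exact ha
      · obtain ⟨u, v, huv, hinv, h1, h2, x, hx, y, hy, hxy⟩ := step hne hab
        have h4 : S a < S (Equiv.swap u v * a) := by
          rw [hS]
          apply Finset.sum_lt_sum (fun x _ => Finset.sum_le_sum fun y _ => h2 x y)
          exact ⟨x, Finset.mem_range.2 hx, Finset.sum_lt_sum (fun y _ => h2 x y)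
            ⟨y, Finset.mem_range.2 hy, hxy⟩⟩
        exact ih _ b (hA a ha u v huv hinv) h1 (by omega)
  intro a b ha hab
  exact main (S b) a b ha hab (by omega)

end Pool.Agent.Q296.Disp
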