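import Pool.Agent.Q296.Disp.Sw

set_option autoImplicit false

namespace Pool.Agent.Q296.Disp

open Finset

/-- the rank of the option `s` -/
def rk {n : ℕ} (i : ℕ) (J : Fin n) (a : Equiv.Perm (Fin n)) (s : Fin n) : ℕ :=
  min (s : ℕ) i - r a (min (s : ℕ) i) J

lemma mem_opt {n : ℕ} {a : Equiv.Perm (Fin n)} {J s : Fin n} : s ∈ opt a J ↔ J ≤ a s := by
  simp [opt]

lemma r_succ_of_opt {n : ℕ} {a : Equiv.Perm (Fin n)} {J s : Fin n} (hs : s ∈ opt a J) :
    r a (s + 1) J = r a s J := by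
  unfold r
  congr 1
  apply Finset.filter_congr
  intro k _
  have hs' : ((J : Fin n) : ℕ) ≤ (a s : ℕ) := mem_opt.1 hs
  constructor
  · rintro ⟨h1, h2⟩
    refine ⟨?_, h2⟩
    rcases Nat.lt_or_ge (k : ℕ) s with h | h
    · exact h
    · have : k = s := Fin.ext (by omega)
      subst this
      omega
  · rintro ⟨h1, h2⟩
    exact ⟨by omega, h2⟩

lemma rk_iff {n i : ℕ} (hi : i ≤ n) {J : Fin n} {a : Equiv.Perm (Fin n)} {s : Fin n}
    (hs : s ∈ opt a J) {x : ℕ} (hx : x ≤ i) : (s : ℕ) < x ↔ rk i J a s + r a x J < x := by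
  have hJ := J.2
  have hsn := s.2
  unfold rk
  constructor
  · intro h
    have hm : min (s : ℕ) i = s := by omega
    rw [hm]
    have h1 := (sw6 n a (s + 1) x J (by omega)).2
    rw [r_succ_of_opt hs] at h1
    have h2 := (sw7 n a s J (by omega) (by omega)).1
    omega
  · intro h
    by_contra hcon
    have hm : x ≤ min (s : ℕ) i := by omega
    have h1 := (sw6 n a x (min (s : ℕ) i) J hm).2
    have h2 := (sw7 n a (min (s : ℕ) i) J (by omega) (by omega)).1
    omega

lemma rk_ge {n i : ℕ} {J : Fin n} {a : Equiv.Perm (Fin n)} {s : Fin n} (h : i ≤ (s : ℕ)) :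
    rk i J a s = i - r a i J := by
  unfold rk
  rw [min_eq_right h]

lemma rk_inj {n i : ℕ} (hi : i ≤ n) {J : Fin n} {a : Equiv.Perm (Fin n)} {s t : Fin n}
    (hs : s ∈ opt a J) (hst : (s : ℕ) < t) (ht : (t : ℕ) < i) : rk i J a s < rk i J a t := by
  have h1 := (rk_iff hi hs ht.le).1 hst
  have h2 : rk i J a t = t - r a t J := by
    unfold rk
    rw [min_eq_left ht.le]
  omega

lemma rk_image {n i : ℕ} (hi : i ≤ n) (J : Fin n) (a : Equiv.Perm (Fin n)) :
    ((opt a J).filter (fun s : Fin n => (s : ℕ) < i)).image (rk i J a) =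
      range (i - r a i J) := by
  have hinj : Set.InjOn (rk i J a) ((opt a J).filter (fun s : Fin n => (s : ℕ) < i)) := by
    intro s hs t ht h
    rw [Finset.mem_coe, Finset.mem_filter] at hs ht
    rcases lt_trichotomy (s : ℕ) t with h1 | h1 | h1
    · have := rk_inj hi hs.1 h1 ht.2
      omega
    · exact Fin.ext h1
    · have := rk_inj hi ht.1 h1 hs.2
      omega
  apply Finset.eq_of_subset_of_card_le
  · intro k hk
    rw [Finset.mem_image] at hk
    obtain ⟨s, hs, rfl⟩ := hk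
    rw [Finset.mem_filter] at hs
    have := (rk_iff hi hs.1 le_rfl).1 hs.2
    rw [Finset.mem_range]
    omega
  · rw [Finset.card_range, Finset.card_image_of_injOn hinj]
    have := sw5 n a J i hi
    omega

lemma le_mv {n i : ℕ} (hi : i ≤ n) {J : Fin n} {a b : Equiv.Perm (Fin n)} (hab : Le i J a b)
    {s t : Fin n} (hs : s ∈ opt a J) (ht : t ∈ opt b J) (h : rk i J b t ≤ rk i J a s) :
    Le i (J + 1) (mv a J s) (mv b J t) := by
  intro x hx y hy
  rcases Nat.lt_or_ge y (J + 1) with h1 | h1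
  · rw [sw2 n a J s (mem_opt.1 hs) x y (by omega), sw2 n b J t (mem_opt.1 ht) x y (by omega)]
    exact hab x hx y (by omega)
  · have hy' : y = J + 1 := le_antisymm hy h1
    rw [hy', sw3 n a J s (mem_opt.1 hs), sw3 n b J t (mem_opt.1 ht)]
    have h2 := hab x hx J le_rfl
    have h3 := rk_iff hi hs hx
    have h4 := rk_iff hi ht hx
    by_cases h5 : (s : ℕ) < x
    · rw [if_pos h5]
      rcases Nat.eq_or_lt_of_le h2 with h6 | h6
      · have h7 : (t : ℕ) < x := by
          rw [h4]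
          have := h3.1 h5
          omega
        rw [if_pos h7]
        omega
      · omega
    · rw [if_neg h5]
      omega

theorem th' (n i : ℕ) (J : Fin n) (Φ : Equiv.Perm (Fin n) → ℝ) (hi : i ≤ n)
    (hΦ : Mo i (J + 1) Φ) : ∃ θ : Equiv.Perm (Fin n) → ℕ → ℝ,
    (∀ a, ∑ s ∈ (opt a J).filter (fun s : Fin n => (s : ℕ) < i), Φ (mv a J s) =
      ∑ k ∈ range (i - r a i J), θ a k) ∧
    (∀ a, ∑ s ∈ (opt a J).filter (fun s : Fin n => ¬ (s : ℕ) < i), Φ (mv a J s) =
      ((n + r a i J - i - J : ℕ) : ℝ) * θ a (i - r a i J)) ∧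
    (∀ a b, Le i J a b → ∀ k k', k' ≤ k →
      (k < i - r a i J ∨ (k = i - r a i J ∧ i + J < n + r a i J)) →
      (k' < i - r b i J ∨ (k' = i - r b i J ∧ i + J < n + r b i J)) → θ a k ≤ θ b k') := by
  classical
  obtain ⟨θ, hθ⟩ : ∃ θ : Equiv.Perm (Fin n) → ℕ → ℝ, θ = fun a k =>
    if h : ∃ s ∈ opt a J, rk i J a s = k then Φ (mv a J h.choose) else 0 := ⟨_, rfl⟩
  have hθ1 : ∀ a, ∀ s ∈ opt a J, θ a (rk i J a s) = Φ (mv a J s) := by
    intro a s hs
    have hex : ∃ t ∈ opt a J, rk i J a t = rk i J a s := ⟨s, hs, rfl⟩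
    rw [hθ]
    simp only [dif_pos hex]
    have h1 := hex.choose_spec
    apply le_antisymm
    · exact hΦ _ _ (le_mv hi (fun _ _ _ _ => le_rfl) h1.1 hs h1.2.ge)
    · exact hΦ _ _ (le_mv hi (fun _ _ _ _ => le_rfl) hs h1.1 h1.2.le)
  have hcard : ∀ a, ((opt a J).filter (fun s : Fin n => ¬ (s : ℕ) < i)).card =
      n + r a i J - i - J := by
    intro a
    have h1 := sw5 n a J i hi
    have h2 := sw4 n a J
    have h3 := Finset.card_filter_add_card_filter_not (s := opt a J)
      (fun s : Fin n => (s : ℕ) < i)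
    have h4 := J.2
    omega
  have hex : ∀ a k, (k < i - r a i J ∨ (k = i - r a i J ∧ i + J < n + r a i J)) →
      ∃ s ∈ opt a J, rk i J a s = k := by
    intro a k hk
    rcases hk with hk | ⟨rfl, hk⟩
    · have h1 : k ∈ ((opt a J).filter (fun s : Fin n => (s : ℕ) < i)).image (rk i J a) := by
        rw [rk_image hi J a, Finset.mem_range]
        exact hk
      rw [Finset.mem_image] at h1
      obtain ⟨s, hs, hsk⟩ := h1
      exact ⟨s, (Finset.mem_filter.1 hs).1, hsk⟩
    · have h1 : 0 < ((opt a J).filter (fun s : Fin n => ¬ (s : ℕ) < i)).card := by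
        rw [hcard]
        omega
      obtain ⟨s, hs⟩ := Finset.card_pos.1 h1
      rw [Finset.mem_filter] at hs
      exact ⟨s, hs.1, rk_ge (by omega)⟩
  refine ⟨θ, ?_, ?_, ?_⟩
  · intro a
    rw [← rk_image hi J a, Finset.sum_image]
    · apply Finset.sum_congr rfl
      intro s hs
      rw [hθ1 a s (Finset.mem_filter.1 hs).1]
    · intro s hs t ht h
      rw [Finset.mem_coe, Finset.mem_filter] at hs ht
      rcases lt_trichotomy (s : ℕ) t with h1 | h1 | h1
      · have := rk_inj hi hs.1 h1 ht.2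
        omega
      · exact Fin.ext h1
      · have := rk_inj hi ht.1 h1 hs.2
        omega
  · intro a
    rw [← hcard a, ← nsmul_eq_mul, ← Finset.sum_const]
    apply Finset.sum_congr rfl
    intro s hs
    rw [Finset.mem_filter] at hs
    rw [← hθ1 a s hs.1, rk_ge (by omega)]
  · intro a b hab k k' hkk hk hk'
    obtain ⟨s, hs, rfl⟩ := hex a k hk
    obtain ⟨t, ht, rfl⟩ := hex b k' hk'
    rw [hθ1 a s hs, hθ1 b t ht]
    exact hΦ _ _ (le_mv hi hab hs ht hkk)

theorem th : S_TH := th'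

end Pool.Agent.Q296.Disp
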